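import Mathlib

set_option autoImplicit false

namespace Pool.Agent.Helper531.Gordh

open Set

variable {X : Type*} [TopologicalSpace X]

/-- A preconnected set that meets `G` and avoids the frontier of `G` lies in `G`. -/
theorem subset_of_no_frontier {S G : Set X} (hS : IsPreconnected S)
    (hd : ∀ x ∈ S, x ∉ frontier G) (hm : (S ∩ G).Nonempty) : S ⊆ interior G := by
  have h1 : S ⊆ interior G ∪ (closure G)ᶜ := by
    intro x hx
    by_cases hxc : x ∈ closure G
    · left
      by_contra hxi
      exact hd x hx ⟨hxc, hxi⟩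
    · right; exact hxc
  have hdis : Disjoint (interior G) ((closure G)ᶜ) := by
    rw [Set.disjoint_left]
    intro x hx hx2
    exact hx2 (interior_subset.trans subset_closure hx)
  apply hS.subset_left_of_subset_union isOpen_interior isClosed_closure.isOpen_compl hdis h1
  obtain ⟨x, hx, hxG⟩ := hm
  refine ⟨x, hx, ?_⟩
  rcases h1 hx with h | h
  · exact h
  · exact absurd (subset_closure hxG) h

/-- Same, with an alternative conclusion. -/
theorem subset_or_disjoint {S G : Set X} (hS : IsPreconnected S) (hG : IsOpen G)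
    (hd : ∀ x ∈ S, x ∉ frontier G) : S ⊆ G ∨ Disjoint S G := by
  by_cases hm : (S ∩ G).Nonempty
  · left
    have := subset_of_no_frontier hS hd hm
    rwa [hG.interior_eq] at this
  · right
    rw [Set.disjoint_iff_inter_eq_empty]
    exact Set.not_nonempty_iff_eq_empty.mp hm

theorem notMem_of_mem_frontier {G : Set X} (hG : IsOpen G) {x : X} (hx : x ∈ frontier G) :
    x ∉ G := by
  intro h
  have := hx.2
  rw [hG.interior_eq] at this
  exact this h

theorem mem_frontier_of {G : Set X} (hG : IsOpen G) {x : X} (hx : x ∈ closure G) (h : x ∉ G) :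
    x ∈ frontier G := by
  refine ⟨hx, ?_⟩
  rwa [hG.interior_eq]

variable [PreconnectedSpace X]

/-- `NoCut X`: no point separates `X`. -/
def NoCut (X : Type*) [TopologicalSpace X] : Prop := ∀ x : X, IsPreconnected ({x}ᶜ : Set X)

theorem region_one (hA : NoCut X) {G : Set X} (hG : IsOpen G) (hne : G.Nonempty) {c z : X}
    (hfr : frontier G ⊆ {c}) (hz : z ∉ G) (hzc : z ≠ c) : False := by
  by_cases hc : c ∈ G
  · have hfr0 : frontier G = ∅ := by
      apply Set.eq_empty_of_forall_notMem
      intro x hx
      have := hfr hx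
      rw [Set.mem_singleton_iff] at this
      subst this
      exact notMem_of_mem_frontier hG hx hc
    have hcl : IsClopen G := isClopen_iff_frontier_eq_empty.mpr hfr0
    have := hcl.eq_univ hne
    exact hz (this ▸ Set.mem_univ z)
  · have h := hA c G ((closure G)ᶜ) hG isClosed_closure.isOpen_compl
    have hsub : ({c}ᶜ : Set X) ⊆ G ∪ (closure G)ᶜ := by
      intro x hx
      by_cases hxG : x ∈ G
      · left; exact hxG
      · right
        intro hxc
        exact hx (hfr (mem_frontier_of hG hxc hxG))
    obtain ⟨g, hg⟩ := hne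
    have hgc : g ≠ c := fun e => hc (e ▸ hg)
    have hzcl : z ∉ closure G := fun hzc' => hzc (hfr (mem_frontier_of hG hzc' hz))
    obtain ⟨w, -, hw1, hw2⟩ := h hsub ⟨g, hgc, hg⟩ ⟨z, hzc, hzcl⟩
    exact hw2 (subset_closure hw1)

theorem region_left (hA : NoCut X) {G : Set X} (hG : IsOpen G) (hne : G.Nonempty) {s t z : X}
    (hfr : frontier G ⊆ {s, t}) (hz : z ∉ G) (hzt : z ≠ t) : s ∈ frontier G := by
  by_contra hs
  apply region_one hA hG hne (c := t) (z := z) _ hz hzt
  intro x hx
  rcases hfr hx with h | h
  · exact absurd (h ▸ hx) hs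
  · exact h

theorem region_two (hA : NoCut X) {G : Set X} (hG : IsOpen G) (hne : G.Nonempty) {s t z : X}
    (hfr : frontier G ⊆ {s, t}) (hz : z ∉ G) (hzs : z ≠ s) (hzt : z ≠ t) :
    frontier G = {s, t} := by
  apply Set.Subset.antisymm hfr
  intro x hx
  rcases hx with h | h
  · rw [h]; exact region_left hA hG hne hfr hz hzt
  · rw [Set.mem_singleton_iff] at h
    rw [h]
    apply region_left hA hG hne (t := s) _ hz hzs
    rw [Set.pair_comm]; exact hfr

theorem region_insert (hA : NoCut X) {G : Set X} (hG : IsOpen G) {s t : X}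
    (hfr : frontier G ⊆ {s, t}) (hs : s ∉ G) (hst : s ≠ t) : IsPreconnected (insert s G) := by
  -- key claim
  have key : ∀ u v : Set X, IsOpen u → IsOpen v → insert s G ⊆ u ∪ v → s ∈ u →
      (insert s G ∩ v).Nonempty → (insert s G ∩ (u ∩ v)).Nonempty := by
    intro u v hu hv hsub hsu hne
    by_contra hemp
    rw [Set.not_nonempty_iff_eq_empty] at hemp
    have hemp' : ∀ x, x ∈ insert s G → x ∈ u → x ∈ v → False := by
      intro x h1 h2 h3
      have : x ∈ insert s G ∩ (u ∩ v) := ⟨h1, h2, h3⟩
      rw [hemp] at this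
      exact this
    obtain ⟨y, hy1, hy2⟩ := hne
    have hyG : y ∈ G := by
      rcases hy1 with h | h
      · exfalso; exact hemp' s (Set.mem_insert _ _) hsu (h ▸ hy2)
      · exact h
    apply region_one hA (hG.inter hv) ⟨y, hyG, hy2⟩ (c := t) (z := s) _ (fun h => hs h.1) hst
    intro x hx
    have hxcl : x ∈ closure (G ∩ v) := hx.1
    have hxn : x ∉ G ∩ v := notMem_of_mem_frontier (hG.inter hv) hx
    have hnotu : x ∈ insert s G → x ∉ u := by
      intro hxs hxu
      rw [mem_closure_iff] at hxcl
      obtain ⟨w, hw1, hw2, hw3⟩ := hxcl u hu hxu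
      exact hemp' w (Set.mem_insert_of_mem _ hw2) hw1 hw3
    have hxG : x ∈ closure G := closure_mono Set.inter_subset_left hxcl
    by_cases hxG' : x ∈ G
    · exfalso
      have h1 : x ∈ insert s G := Set.mem_insert_of_mem _ hxG'
      rcases hsub h1 with h | h
      · exact hnotu h1 h
      · exact hxn ⟨hxG', h⟩
    · rcases hfr (mem_frontier_of hG hxG hxG') with h | h
      · exfalso
        have h1 : x ∈ insert s G := by rw [h]; exact Set.mem_insert _ _
        exact hnotu h1 (h ▸ hsu)
      · exact h
  intro u v hu hv hsub hneu hnev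
  rcases hsub (Set.mem_insert s G) with hsu | hsv
  · exact key u v hu hv hsub hsu hnev
  · have := key v u hv hu (by rwa [Set.union_comm]) hsv hneu
    rwa [Set.inter_comm v u] at this

end Pool.Agent.Helper531.Gordh
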