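import Mathlib
import Pool.Agent.Helper531.Region

set_option autoImplicit false

namespace Pool.Agent.Helper531.Gordh

open Set

variable {X : Type*} [TopologicalSpace X]

/-- From non-preconnectedness of an open set get a separation into open sets. -/
theorem exists_sep {S : Set X} (hS : IsOpen S) (h : ¬ IsPreconnected S) :
    ∃ U V : Set X, IsOpen U ∧ IsOpen V ∧ Disjoint U V ∧ U.Nonempty ∧ V.Nonempty ∧ U ∪ V = S := by
  unfold IsPreconnected at h
  push Not at h
  obtain ⟨u, v, hu, hv, hsub, hnu, hnv, hemp⟩ := h
  refine ⟨S ∩ u, S ∩ v, hS.inter hu, hS.inter hv, ?_, hnu, hnv, ?_⟩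
  · rw [Set.disjoint_left]
    intro x hx hx2
    have : x ∈ S ∩ (u ∩ v) := ⟨hx.1, hx.2, hx2.2⟩
    rw [hemp] at this
    exact this
  · rw [← Set.inter_union_distrib_left]
    exact Set.inter_eq_left.mpr hsub

/-- data of a separation of the complement of a point -/
structure Cut (x : X) (U V : Set X) : Prop where
  oU : IsOpen U
  oV : IsOpen V
  dis : Disjoint U V
  nU : U.Nonempty
  nV : V.Nonempty
  un : U ∪ V = {x}ᶜ

theorem Cut.symm {x : X} {U V : Set X} (h : Cut x U V) : Cut x V U :=
  ⟨h.oV, h.oU, h.dis.symm, h.nV, h.nU, by rw [Set.union_comm]; exact h.un⟩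

theorem Cut.xU {x : X} {U V : Set X} (h : Cut x U V) : x ∉ U := by
  intro hx
  have : x ∈ U ∪ V := Or.inl hx
  rw [h.un] at this
  exact this rfl

theorem Cut.pre [PreconnectedSpace X] {x : X} {U V : Set X} (h : Cut x U V) :
    IsPreconnected (insert x U) := by
  have key : ∀ u v : Set X, IsOpen u → IsOpen v → insert x U ⊆ u ∪ v → x ∈ u →
      (insert x U ∩ v).Nonempty → (insert x U ∩ (u ∩ v)).Nonempty := by
    intro u v hu hv hsub hsu hne
    by_contra hemp
    rw [Set.not_nonempty_iff_eq_empty] at hemp
    have hemp' : ∀ y, y ∈ insert x U → y ∈ u → y ∈ v → False := by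
      intro y h1 h2 h3
      have : y ∈ insert x U ∩ (u ∩ v) := ⟨h1, h2, h3⟩
      rw [hemp] at this
      exact this
    obtain ⟨y, hy1, hy2⟩ := hne
    have hyG : y ∈ U := by
      rcases hy1 with h' | h'
      · exfalso; exact hemp' x (Set.mem_insert _ _) hsu (h' ▸ hy2)
      · exact h'
    have hcl : IsClosed (U ∩ v) := by
      rw [← isOpen_compl_iff]
      have : (U ∩ v)ᶜ = u ∪ V := by
        ext w
        constructor
        · intro hw
          by_cases hwx : w = x
          · left; rw [hwx]; exact hsu
          · have : w ∈ U ∪ V := by rw [h.un]; exact hwx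
            rcases this with h1 | h1
            · rcases hsub (Set.mem_insert_of_mem _ h1) with h2 | h2
              · left; exact h2
              · exact absurd ⟨h1, h2⟩ hw
            · right; exact h1
        · rintro (h1 | h1) ⟨h2, h3⟩
          · exact hemp' w (Set.mem_insert_of_mem _ h2) h1 h3
          · exact Set.disjoint_left.mp h.dis h2 h1
      rw [this]
      exact hu.union h.oV
    have hclop : IsClopen (U ∩ v) := ⟨hcl, h.oU.inter hv⟩
    have := hclop.eq_univ ⟨y, hyG, hy2⟩
    have hx : x ∈ U ∩ v := this ▸ Set.mem_univ x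
    exact h.xU hx.1
  intro u v hu hv hsub hneu hnev
  rcases hsub (Set.mem_insert x U) with hsu | hsv
  · exact key u v hu hv hsub hsu hnev
  · have := key v u hv hu (by rwa [Set.union_comm]) hsv hneu
    rwa [Set.inter_comm v u] at this

theorem Cut.mem {x y : X} {U V : Set X} (h : Cut x U V) (hy : y ≠ x) : y ∈ U ∨ y ∈ V := by
  have : y ∈ U ∪ V := by rw [h.un]; exact hy
  exact this

theorem Cut.closure_sub [T1Space X] {x : X} {U V : Set X} (h : Cut x U V) : closure V ⊆ insert x V := by
  apply closure_minimal (Set.subset_insert _ _)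
  rw [← isOpen_compl_iff]
  have : (insert x V)ᶜ = U := by
    ext w
    constructor
    · intro hw
      have hwx : w ≠ x := fun e => hw (e ▸ Set.mem_insert _ _)
      rcases h.mem hwx with h1 | h1
      · exact h1
      · exact absurd (Set.mem_insert_of_mem _ h1) hw
    · rintro h1 (h2 | h2)
      · exact h.xU (h2 ▸ h1)
      · exact Set.disjoint_left.mp h.dis h1 h2
  rw [this]
  exact h.oU

/-- In a compact connected Hausdorff space not every point is a cut point. -/
theorem exists_noncut [T2Space X] [CompactSpace X] [PreconnectedSpace X] [Nontrivial X]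
    (hall : ∀ x : X, ¬ IsPreconnected ({x}ᶜ : Set X)) : False := by
  obtain ⟨x0, x1, hx01⟩ := exists_pair_ne X
  have hsep : ∀ x : X, ∃ U V : Set X, Cut x U V ∧ (x ≠ x0 → x0 ∈ U) := by
    intro x
    obtain ⟨U, V, h1, h2, h3, h4, h5, h6⟩ := exists_sep isOpen_compl_singleton (hall x)
    have hc : Cut x U V := ⟨h1, h2, h3, h4, h5, h6⟩
    by_cases hx : x0 ∈ U
    · exact ⟨U, V, hc, fun _ => hx⟩
    · refine ⟨V, U, hc.symm, fun hne => ?_⟩
      rcases hc.mem (Ne.symm hne) with h | h
      · exact absurd h hx
      · exact h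
  choose U V hcut hU using hsep
  -- main inclusion
  have hinc : ∀ x y : X, x ≠ x0 → y ∈ V x → insert y (V y) ⊆ V x := by
    intro x y hx hy
    have hy0 : y ≠ x0 := by
      rintro rfl
      exact Set.disjoint_left.mp (hcut x).dis (hU x hx) hy
    have h1 : insert x (U x) ⊆ U y ∪ V y := by
      intro w hw
      apply (hcut y).mem
      rintro rfl
      rcases hw with h | h
      · subst h; exact (hcut w).symm.xU hy
      · exact Set.disjoint_left.mp (hcut x).dis h hy
    have h2 : insert x (U x) ⊆ U y :=
      (hcut x).pre.subset_left_of_subset_union (hcut y).oU (hcut y).oV (hcut y).dis h1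
        ⟨x0, Set.mem_insert_of_mem _ (hU x hx), hU y hy0⟩
    intro w hw
    by_contra hwV
    have hwU : w ∈ insert x (U x) := by
      by_cases hwx : w = x
      · rw [hwx]; exact Set.mem_insert _ _
      · rcases (hcut x).mem hwx with h | h
        · exact Set.mem_insert_of_mem _ h
        · exact absurd h hwV
    have := h2 hwU
    rcases hw with h | h
    · subst h; exact (hcut w).xU this
    · exact Set.disjoint_left.mp (hcut y).dis this h
  let 𝒱 : Set (Set X) := {W | ∃ x, x ≠ x0 ∧ W = V x}
  have hz : ∃ m, Minimal (fun W => W ∈ 𝒱) m := by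
    apply zorn_superset
    intro c hc hchain
    rcases c.eq_empty_or_nonempty with hce | hcne
    · exact ⟨V x1, ⟨x1, Ne.symm hx01, rfl⟩, by simp [hce]⟩
    by_cases hleast : ∃ W ∈ c, ∀ W' ∈ c, W ⊆ W'
    · obtain ⟨W, hW, hW'⟩ := hleast
      exact ⟨W, hc hW, hW'⟩
    push Not at hleast
    -- intersection of closures is nonempty
    have hne : (⋂ W : c, closure (W : Set X)).Nonempty := by
      have : Nonempty c := hcne.to_subtype
      apply IsCompact.nonempty_iInter_of_directed_nonempty_isCompact_isClosed
      · intro W1 W2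
        rcases hchain.total W1.2 W2.2 with h | h
        · exact ⟨W1, subset_refl _, closure_mono h⟩
        · exact ⟨W2, closure_mono h, subset_refl _⟩
      · rintro ⟨W, hW⟩
        obtain ⟨x, -, rfl⟩ := hc hW
        exact (hcut x).nV.mono subset_closure
      · intro W; exact isClosed_closure.isCompact
      · intro W; exact isClosed_closure
    obtain ⟨z, hz⟩ := hne
    rw [Set.mem_iInter] at hz
    have hzin : ∀ W ∈ c, z ∈ W := by
      intro W hW
      obtain ⟨W', hW', hnsub⟩ := hleast W hW
      have hsub : W' ⊆ W := by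
        rcases hchain.total hW hW' with h | h
        · exact absurd h hnsub
        · exact h
      obtain ⟨x, hx, rfl⟩ := hc hW
      obtain ⟨y, hy, rfl⟩ := hc hW'
      -- y ∈ V x
      have hyV : y ∈ V x := by
        by_contra hyn
        have hyx : y ≠ x := by rintro rfl; exact hnsub (subset_refl _)
        have hyU : y ∉ insert x (V x) := by
          rintro (h | h)
          · exact hyx h
          · exact hyn h
        have h1 : insert x (V x) ⊆ V y ∪ U y := by
          intro w hw
          rw [Set.union_comm]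
          apply (hcut y).mem
          rintro rfl
          exact hyU hw
        have h2 : insert x (V x) ⊆ V y := by
          apply (hcut x).symm.pre.subset_left_of_subset_union (hcut y).oV (hcut y).oU
            (hcut y).dis.symm h1
          obtain ⟨w, hw⟩ := (hcut y).nV
          exact ⟨w, Set.mem_insert_of_mem _ (hsub hw), hw⟩
        exact hnsub ((Set.subset_insert _ _).trans h2)
      have h3 : z ∈ closure (V y) := hz ⟨V y, hW'⟩
      exact hinc x y hx hyV ((hcut y).closure_sub h3)
    obtain ⟨W0, hW0⟩ := hcne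
    obtain ⟨x, hx, rfl⟩ := hc hW0
    have hzx0 : z ≠ x0 := by
      rintro rfl
      exact Set.disjoint_left.mp (hcut x).dis (hU x hx) (hzin _ hW0)
    refine ⟨V z, ⟨z, hzx0, rfl⟩, ?_⟩
    intro W hW
    obtain ⟨y, hy, rfl⟩ := hc hW
    exact (Set.subset_insert _ _).trans (hinc y z hy (hzin _ hW))
  obtain ⟨m, hm⟩ := hz
  obtain ⟨x, hx, hmx⟩ := hm.prop
  obtain ⟨y, hy⟩ := (hcut x).nV
  have hy0 : y ≠ x0 := by
    rintro rfl
    exact Set.disjoint_left.mp (hcut x).dis (hU x hx) hy
  have h1 : V y ⊆ m := by rw [hmx]; exact (Set.subset_insert _ _).trans (hinc x y hx hy)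
  have h2 : m ⊆ V y := hm.le_of_le (show V y ∈ 𝒱 from ⟨y, hy0, rfl⟩) h1
  exact (hcut y).symm.xU (h2 (hmx ▸ hy))

theorem preconnected_compl_of_homeo {x y : X} (h : X ≃ₜ X) (hxy : h x = y)
    (hx : IsPreconnected ({x}ᶜ : Set X)) : IsPreconnected ({y}ᶜ : Set X) := by
  have := hx.image h h.continuous.continuousOn
  rw [Set.image_compl_eq h.bijective, Set.image_singleton, hxy] at this
  exact this

theorem noCut_of_homogeneous [T2Space X] [CompactSpace X] [PreconnectedSpace X] [Nontrivial X]
    (hh : ∀ x y : X, ∃ h : X ≃ₜ X, h x = y) : NoCut X := by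
  intro y
  by_contra hy
  apply exists_noncut (X := X)
  intro x hx
  obtain ⟨h, hxy⟩ := hh x y
  exact hy (preconnected_compl_of_homeo h hxy hx)

end Pool.Agent.Helper531.Gordh
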