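import Mathlib
import Pool.Agent.Helper531.NoCut

set_option autoImplicit false

namespace Pool.Agent.Helper531.Gordh

open Set

variable {X : Type*} [TopologicalSpace X]

/-- data of a separation of the complement of a pair of points -/
structure Sep (a b : X) (U V : Set X) : Prop where
  ne : a ≠ b
  oU : IsOpen U
  oV : IsOpen V
  dis : Disjoint U V
  nU : U.Nonempty
  nV : V.Nonempty
  un : U ∪ V = {a, b}ᶜ

namespace Sep

variable {a b : X} {U V : Set X}

theorem symm (h : Sep a b U V) : Sep a b V U :=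
  ⟨h.ne, h.oV, h.oU, h.dis.symm, h.nV, h.nU, by rw [Set.union_comm]; exact h.un⟩

theorem swap (h : Sep a b U V) : Sep b a U V :=
  ⟨h.ne.symm, h.oU, h.oV, h.dis, h.nU, h.nV, by rw [Set.pair_comm]; exact h.un⟩

theorem mem (h : Sep a b U V) {y : X} (ha : y ≠ a) (hb : y ≠ b) : y ∈ U ∨ y ∈ V := by
  have : y ∈ U ∪ V := by
    rw [h.un]
    rintro (h | h)
    · exact ha h
    · exact hb h
  exact this

theorem aU (h : Sep a b U V) : a ∉ U := by
  intro hx
  have : a ∈ U ∪ V := Or.inl hx
  rw [h.un] at this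
  exact this (Or.inl rfl)

theorem bU (h : Sep a b U V) : b ∉ U := h.swap.aU
theorem aV (h : Sep a b U V) : a ∉ V := h.symm.aU
theorem bV (h : Sep a b U V) : b ∉ V := h.symm.bU

theorem nUV (h : Sep a b U V) {y : X} (h1 : y ∈ U) (h2 : y ∈ V) : False :=
  Set.disjoint_left.mp h.dis h1 h2

theorem closure_sub [T1Space X] (h : Sep a b U V) : closure U ⊆ U ∪ {a, b} := by
  apply closure_minimal Set.subset_union_left
  rw [← isOpen_compl_iff]
  have : (U ∪ {a, b})ᶜ = V := by
    ext w
    constructor
    · intro hw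
      have hwa : w ≠ a := fun e => hw (Or.inr (Or.inl e))
      have hwb : w ≠ b := fun e => hw (Or.inr (Or.inr e))
      rcases h.mem hwa hwb with h1 | h1
      · exact absurd (Or.inl h1) hw
      · exact h1
    · rintro h1 (h2 | h2)
      · exact h.nUV h2 h1
      · rcases h2 with h2 | h2
        · exact h.aV (h2 ▸ h1)
        · exact h.bV (h2 ▸ h1)
  rw [this]
  exact h.oV

theorem frontier_eq [T1Space X] [PreconnectedSpace X] (hA : NoCut X) (h : Sep a b U V) :
    frontier U = {a, b} := by
  obtain ⟨z, hz⟩ := h.nV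
  apply region_two hA h.oU h.nU (z := z)
  · intro x hx
    rcases h.closure_sub hx.1 with h1 | h1
    · exact absurd h1 (notMem_of_mem_frontier h.oU hx)
    · exact h1
  · intro h1; exact h.nUV h1 hz
  · rintro rfl; exact h.aV hz
  · rintro rfl; exact h.bV hz

theorem a_mem [T1Space X] [PreconnectedSpace X] (hA : NoCut X) (h : Sep a b U V) :
    a ∈ closure U := by
  have : a ∈ frontier U := by rw [h.frontier_eq hA]; exact Or.inl rfl
  exact this.1

theorem b_mem [T1Space X] [PreconnectedSpace X] (hA : NoCut X) (h : Sep a b U V) :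
    b ∈ closure U := h.swap.a_mem hA

theorem closure_eq [T1Space X] [PreconnectedSpace X] (hA : NoCut X) (h : Sep a b U V) :
    closure U = U ∪ {a, b} := by
  apply Set.Subset.antisymm h.closure_sub
  rintro x (hx | hx | hx)
  · exact subset_closure hx
  · rw [hx]; exact h.a_mem hA
  · rw [Set.mem_singleton_iff] at hx
    rw [hx]; exact h.b_mem hA

theorem pre_insert [T1Space X] [PreconnectedSpace X] (hA : NoCut X) (h : Sep a b U V) :
    IsPreconnected (insert a U) := by
  apply region_insert hA h.oU (t := b) _ h.aU h.ne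
  rw [h.frontier_eq hA]

theorem pre_closure [T1Space X] [PreconnectedSpace X] (hA : NoCut X) (h : Sep a b U V) :
    IsPreconnected (closure U) := by
  apply (h.pre_insert hA).subset_closure
  · rw [h.closure_eq hA]
    rintro x (hx | hx)
    · right; left; exact hx
    · left; exact hx
  · exact closure_mono (Set.subset_insert _ _)

end Sep

theorem sep_of_not_preconnected [T1Space X] {a b : X} (hab : a ≠ b)
    (h : ¬ IsPreconnected ({a, b}ᶜ : Set X)) : ∃ U V, Sep a b U V := by
  obtain ⟨U, V, h1, h2, h3, h4, h5, h6⟩ :=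
    exists_sep (Set.Finite.isClosed (by simp : ({a, b} : Set X).Finite)).isOpen_compl h
  exact ⟨U, V, hab, h1, h2, h3, h4, h5, h6⟩

theorem Sep.map {a b : X} {U V : Set X} (s : Sep a b U V) (h : X ≃ₜ X) :
    Sep (h a) (h b) (h '' U) (h '' V) where
  ne := fun e => s.ne (h.injective e)
  oU := h.isOpenMap _ s.oU
  oV := h.isOpenMap _ s.oV
  dis := (Set.disjoint_image_iff h.injective).mpr s.dis
  nU := s.nU.image _
  nV := s.nV.image _
  un := by
    rw [← Set.image_union, s.un, Set.image_compl_eq h.bijective, Set.image_pair]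

/-- boundary bumping, in the form needed -/
theorem bump [T2Space X] [CompactSpace X] {A : Set X} (hA : IsClosed A) (hc : IsPreconnected A)
    {x q : X} (hx : x ∈ A) (hq : q ∈ A) {O : Set X} (hO : IsOpen O) (hqO : q ∈ O)
    (hxO : x ∉ closure O) :
    ∃ C : Set X, C ⊆ A \ O ∧ IsPreconnected C ∧ x ∈ C ∧ ∃ c ∈ C, c ≠ x := by
  have hxO' : x ∉ O := fun h => hxO (subset_closure h)
  have hFcl : IsClosed (A \ O) := hA.sdiff hO
  have : CompactSpace (A \ O : Set X) := isCompact_iff_compactSpace.mp hFcl.isCompact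
  let x' : (A \ O : Set X) := ⟨x, hx, hxO'⟩
  by_cases hC : connectedComponent x' = {x'}
  · exfalso
    rw [connectedComponent_eq_iInter_isClopen] at hC
    -- compact set of points in closure O
    let K : Set (A \ O : Set X) := Subtype.val ⁻¹' (closure O)
    have hK : IsCompact K := (isClosed_closure.preimage continuous_subtype_val).isCompact
    have hKx : x' ∉ K := hxO
    have hcov : K ⊆ ⋃ Z : {s : Set (A \ O : Set X) // IsClopen s ∧ x' ∈ s}, ((Z : Set _))ᶜ := by
      intro y hy
      by_contra hn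
      rw [Set.mem_iUnion] at hn
      push Not at hn
      have : y ∈ ⋂ s : {s : Set (A \ O : Set X) // IsClopen s ∧ x' ∈ s}, (s : Set _) := by
        rw [Set.mem_iInter]
        intro Z
        have := hn Z
        rwa [Set.notMem_compl_iff] at this
      rw [hC, Set.mem_singleton_iff] at this
      exact hKx (this ▸ hy)
    obtain ⟨t, ht⟩ := hK.elim_finite_subcover _ (fun Z => Z.2.1.compl.isOpen) hcov
    -- the clopen set
    let Z : Set (A \ O : Set X) := ⋂ s ∈ t, (s : Set _)
    have hZ : IsClopen Z := Set.Finite.isClopen_biInter t.finite_toSet (fun s _ => s.2.1)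
    have hxZ : x' ∈ Z := by
      simp only [Z, Set.mem_iInter]
      intro s _; exact s.2.2
    have hZK : ∀ y ∈ Z, y ∉ K := by
      intro y hy hyK
      have := ht hyK
      rw [Set.mem_iUnion₂] at this
      obtain ⟨s, hs, hys⟩ := this
      simp only [Z, Set.mem_iInter] at hy
      exact hys (hy s hs)
    obtain ⟨G, hG, hGZ⟩ := isOpen_induced_iff.mp hZ.isOpen
    have hZc : IsClosed (Subtype.val '' Z : Set X) :=
      (hZ.isClosed.isCompact.image continuous_subtype_val).isClosed
    have h := hc (G \ closure O) ((Subtype.val '' Z : Set X)ᶜ) (hG.sdiff isClosed_closure)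
      hZc.isOpen_compl ?_ ⟨x, hx, ?_, hxO⟩ ⟨q, hq, ?_⟩
    · obtain ⟨y, hyA, ⟨hyG, hyO⟩, hyZ⟩ := h
      apply hyZ
      have hyO' : y ∉ O := fun h => hyO (subset_closure h)
      refine ⟨⟨y, hyA, hyO'⟩, ?_, rfl⟩
      rw [← hGZ]
      exact hyG
    · intro y hy
      by_cases hyZ : y ∈ (Subtype.val '' Z : Set X)
      · left
        obtain ⟨y', hy', rfl⟩ := hyZ
        refine ⟨?_, fun h => hZK y' hy' h⟩
        rw [← hGZ] at hy'
        exact hy'
      · right; exact hyZ
    · have := hxZ
      rw [← hGZ] at this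
      exact this
    · rintro ⟨y', hy', hy'q⟩
      exact y'.2.2 (hy'q ▸ hqO)
  · refine ⟨Subtype.val '' connectedComponent x', ?_, ?_, ⟨x', mem_connectedComponent, rfl⟩, ?_⟩
    · rintro _ ⟨y, -, rfl⟩
      exact y.2
    · exact isPreconnected_connectedComponent.image _ continuous_subtype_val.continuousOn
    · by_contra hn
      push Not at hn
      apply hC
      apply Set.Subset.antisymm
      · intro y hy
        have := hn y.1 ⟨y, hy, rfl⟩
        exact Subtype.ext this
      · intro y hy
        rw [Set.mem_singleton_iff.mp hy]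
        exact mem_connectedComponent

/-- Local structure at a point: arbitrarily small neighbourhoods `N₁ ∪ {x} ∪ N₂` with two boundary
points, cut by `x` into `N₁` and `N₂`. -/
structure Germ (x : X) (N₁ N₂ : Set X) (y z : X) : Prop where
  o1 : IsOpen N₁
  o2 : IsOpen N₂
  oN : IsOpen (insert x (N₁ ∪ N₂))
  dis : Disjoint N₁ N₂
  x1 : x ∉ N₁
  x2 : x ∉ N₂
  yx : y ≠ x
  zx : z ≠ x
  f1 : frontier N₁ = {x, y}
  f2 : frontier N₂ = {x, z}

def LocSep (x : X) : Prop :=
  ∀ W : Set X, IsOpen W → x ∈ W → ∃ (N₁ N₂ : Set X) (y z : X),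
    Germ x N₁ N₂ y z ∧ closure N₁ ⊆ W ∧ closure N₂ ⊆ W

end Pool.Agent.Helper531.Gordh
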