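import Mathlib
import Pool.Agent.Helper531.Local

set_option autoImplicit false

namespace Pool.Agent.Helper531.Gordh

open Set TopologicalSpace

variable {X : Type*} [TopologicalSpace X]

theorem half_bump [T2Space X] [CompactSpace X] [PreconnectedSpace X] (hA : NoCut X)
    {x q : X} {U V O : Set X} (s : Sep x q U V) (hO : IsOpen O) (hqO : q ∈ O)
    (hxO : x ∉ closure O) :
    ∃ C : Set X, C ⊆ Oᶜ ∧ IsPreconnected C ∧ x ∈ C ∧ ∃ c ∈ C, c ∈ U := by
  obtain ⟨C, hC, hCp, hxC, c, hcC, hcx⟩ := bump isClosed_closure (s.pre_closure hA)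
    (s.a_mem hA) (s.b_mem hA) hO hqO hxO
  refine ⟨C, fun y hy => (hC hy).2, hCp, hxC, c, hcC, ?_⟩
  have h1 := (hC hcC).1
  have h2 := (hC hcC).2
  rcases s.closure_sub h1 with h | h | h
  · exact h
  · exact absurd h hcx
  · rw [Set.mem_singleton_iff] at h
    exact absurd hqO (h ▸ h2)

theorem exists_data [T2Space X] [CompactSpace X] [PreconnectedSpace X]
    [SecondCountableTopology X] (hA : NoCut X) {x q : X} {U V : Set X} (s : Sep x q U V) :
    ∃ O G1 G2 C : Set X, O ∈ countableBasis X ∧ G1 ∈ countableBasis X ∧ G2 ∈ countableBasis X ∧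
      q ∈ O ∧ x ∉ closure O ∧ IsPreconnected C ∧ x ∈ C ∧ C ⊆ Oᶜ ∧ (C ∩ G1).Nonempty ∧ G1 ⊆ U ∧
      (C ∩ G2).Nonempty ∧ G2 ⊆ V := by
  obtain ⟨u, v, hu, hv, hxu, hqv, huv⟩ := t2_separation s.ne
  obtain ⟨O, hOB, hqO, hOv⟩ := (isBasis_countableBasis X).exists_subset_of_mem_open hqv hv
  have hO : IsOpen O := isOpen_of_mem_countableBasis hOB
  have hxO : x ∉ closure O := by
    intro h
    have := closure_mono hOv h
    rw [mem_closure_iff] at this
    obtain ⟨w, hw1, hw2⟩ := this u hu hxu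
    exact Set.disjoint_left.mp huv hw1 hw2
  obtain ⟨C1, h1, h2, h3, c1, h4, h5⟩ := half_bump hA s hO hqO hxO
  obtain ⟨C2, k1, k2, k3, c2, k4, k5⟩ := half_bump hA s.symm hO hqO hxO
  obtain ⟨G1, hG1B, hG1, hG1U⟩ := (isBasis_countableBasis X).exists_subset_of_mem_open h5 s.oU
  obtain ⟨G2, hG2B, hG2, hG2V⟩ := (isBasis_countableBasis X).exists_subset_of_mem_open k5 s.oV
  refine ⟨O, G1, G2, C1 ∪ C2, hOB, hG1B, hG2B, hqO, hxO, h2.union x h3 k3 k2, Or.inl h3,
    Set.union_subset h1 k1, ⟨c1, Or.inl h4, hG1⟩, hG1U, ⟨c2, Or.inr k4, hG2⟩, hG2V⟩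

/-- At some point the local structure holds. -/
theorem exists_locSep [T2Space X] [CompactSpace X] [PreconnectedSpace X]
    [SecondCountableTopology X] (hA : NoCut X) (hunc : ¬ (univ : Set X).Countable)
    (hq : ∀ x : X, ∃ (q : X) (U V : Set X), Sep x q U V) : ∃ x : X, LocSep x := by
  choose q U V hs using hq
  have hdata := fun x => exists_data hA (hs x)
  choose O G1 G2 C hOB hG1B hG2B hqO hxO hCp hxC hCO hCG1 hG1U hCG2 hG2V using hdata
  have hOo : ∀ x, IsOpen (O x) := fun x => isOpen_of_mem_countableBasis (hOB x)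
  -- pigeonhole
  let k : X → Set X × Set X × Set X := fun x => (O x, G1 x, G2 x)
  let B3 : Set (Set X × Set X × Set X) := countableBasis X ×ˢ (countableBasis X ×ˢ countableBasis X)
  have hB3 : B3.Countable :=
    (countable_countableBasis X).prod ((countable_countableBasis X).prod (countable_countableBasis X))
  have hk : ∃ k0, ¬ {x | k x = k0}.Countable := by
    by_contra hn
    push Not at hn
    apply hunc
    have : (univ : Set X) = ⋃ k0 ∈ B3, {x | k x = k0} := by
      ext x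
      simp only [Set.mem_univ, Set.mem_iUnion, Set.mem_ofPred_eq, true_iff]
      exact ⟨k x, ⟨hOB x, hG1B x, hG2B x⟩, rfl⟩
    rw [this]
    exact hB3.biUnion (fun k0 _ => hn k0)
  obtain ⟨k0, hk0⟩ := hk
  set S : Set X := {x | k x = k0} with hS
  have hOeq : ∀ x ∈ S, ∀ y ∈ S, O x = O y := by
    intro x hx y hy
    have : k x = k y := by rw [hx, hy]
    exact congrArg Prod.fst this
  have hG1eq : ∀ x ∈ S, ∀ y ∈ S, G1 x = G1 y := by
    intro x hx y hy
    have : k x = k y := by rw [hx, hy]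
    exact congrArg (fun t => t.2.1) this
  have hG2eq : ∀ x ∈ S, ∀ y ∈ S, G2 x = G2 y := by
    intro x hx y hy
    have : k x = k y := by rw [hx, hy]
    exact congrArg (fun t => t.2.2) this
  -- each x ∈ S lies in C y
  have hmem : ∀ x ∈ S, ∀ y ∈ S, x ∈ C y := by
    intro x hx y hy
    by_contra hn
    have hsub : C y ⊆ U x ∪ V x := by
      intro w hw
      apply (hs x).mem
      · rintro rfl; exact hn hw
      · rintro rfl
        exact hCO y hw (hOeq x hx y hy ▸ hqO x)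
    obtain ⟨w1, hw1, hw1'⟩ := hCG1 y
    obtain ⟨w2, hw2, hw2'⟩ := hCG2 y
    obtain ⟨w, -, h1, h2⟩ := hCp y (U x) (V x) (hs x).oU (hs x).oV hsub
      ⟨w1, hw1, hG1U x (hG1eq x hx y hy ▸ hw1')⟩ ⟨w2, hw2, hG2V x (hG2eq x hx y hy ▸ hw2')⟩
    exact (hs x).nUV h1 h2
  have hnotO : ∀ x ∈ S, ∀ y ∈ S, x ∉ O y := by
    intro x hx y hy h
    rw [← hOeq x hx y hy] at h
    exact hxO x (subset_closure h)
  have hneq : ∀ x ∈ S, ∀ y ∈ S, x ≠ q y := by
    intro x hx y hy h
    exact hnotO x hx y hy (h ▸ hqO y)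
  -- trichotomy
  have htri : ∀ x ∈ S, ∀ y ∈ S, x ≠ y → (x ∈ U y ∧ y ∈ V x) ∨ (x ∈ V y ∧ y ∈ U x) := by
    intro x hx y hy hxy
    have hx1 := (hs y).mem hxy (hneq x hx y hy)
    have hy1 := (hs x).mem hxy.symm (hneq y hy x hx)
    -- general claim
    have hcl : ∀ P P' Q Q' : Set X, IsOpen P → IsOpen P' → IsOpen Q → IsOpen Q' →
        P ∪ Q = {x, q x}ᶜ → P' ∪ Q' = {y, q y}ᶜ → Disjoint P Q → Disjoint P' Q' →
        (C x ∩ (P ∩ P')).Nonempty → (C x ∩ Q).Nonempty → x ∈ Q' → y ∈ Q → False := by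
      intro P P' Q Q' hP hP' hQ hQ' hPQ hPQ' hd hd' hn1 hn2 hxQ hyQ
      have hsub : C x ⊆ (P ∩ P') ∪ (Q ∪ Q') := by
        intro w hw
        by_cases hwx : w = x
        · right; right; rw [hwx]; exact hxQ
        by_cases hwy : w = y
        · right; left; rw [hwy]; exact hyQ
        have hwqx : w ≠ q x := fun h => hCO x hw (h ▸ hqO x)
        have hwqy : w ≠ q y := fun h => hCO x hw (hOeq y hy x hx ▸ (h ▸ hqO y))
        have h1 : w ∈ P ∪ Q := by
          rw [hPQ]; rintro (h | h)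
          · exact hwx h
          · exact hwqx h
        have h2 : w ∈ P' ∪ Q' := by
          rw [hPQ']; rintro (h | h)
          · exact hwy h
          · exact hwqy h
        rcases h1 with h1 | h1
        · rcases h2 with h2 | h2
          · left; exact ⟨h1, h2⟩
          · right; right; exact h2
        · right; left; exact h1
      obtain ⟨w0, hw0, hw0'⟩ := hn2
      obtain ⟨w, -, ⟨h1, h2⟩, h3⟩ := hCp x (P ∩ P') (Q ∪ Q') (hP.inter hP') (hQ.union hQ') hsub
        hn1 ⟨w0, hw0, Or.inl hw0'⟩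
      rcases h3 with h3 | h3
      · exact Set.disjoint_left.mp hd h1 h3
      · exact Set.disjoint_left.mp hd' h2 h3
    obtain ⟨w1, hw1, hw1'⟩ := hCG1 x
    obtain ⟨w2, hw2, hw2'⟩ := hCG2 x
    have hu1 : w1 ∈ U x := hG1U x hw1'
    have hu2 : w1 ∈ U y := hG1U y (hG1eq x hx y hy ▸ hw1')
    have hv1 : w2 ∈ V x := hG2V x hw2'
    have hv2 : w2 ∈ V y := hG2V y (hG2eq x hx y hy ▸ hw2')
    rcases hx1 with h1 | h1 <;> rcases hy1 with h2 | h2
    · exfalso
      apply hcl (V x) (V y) (U x) (U y) (hs x).oV (hs y).oV (hs x).oU (hs y).oU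
        (hs x).symm.un (hs y).symm.un (hs x).dis.symm (hs y).dis.symm
        ⟨w2, hw2, hv1, hv2⟩ ⟨w1, hw1, hu1⟩ h1 h2
    · left; exact ⟨h1, h2⟩
    · right; exact ⟨h1, h2⟩
    · exfalso
      apply hcl (U x) (U y) (V x) (V y) (hs x).oU (hs y).oU (hs x).oV (hs y).oV
        (hs x).un (hs y).un (hs x).dis (hs y).dis
        ⟨w1, hw1, hu1, hu2⟩ ⟨w2, hw2, hv1⟩ h1 h2
  -- bad sets
  let SU : Set X := {x | x ∈ S ∧ ∃ w ∈ U x, (∀ y ∈ S, y ∈ U x → w ∉ U y) ∧ (∀ z ∈ S, z ∈ V x → w ∉ V z)}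
  let SV : Set X := {x | x ∈ S ∧ ∃ w ∈ V x, (∀ y ∈ S, y ∈ U x → w ∉ U y) ∧ (∀ z ∈ S, z ∈ V x → w ∉ V z)}
  have hSU : SU.Countable := by
    have : ∀ x, ∃ b : Set X, x ∈ SU → b ∈ countableBasis X ∧ b ⊆ U x ∧ ∃ w ∈ b,
        (∀ y ∈ S, y ∈ U x → w ∉ U y) := by
      intro x
      by_cases hx : x ∈ SU
      · obtain ⟨w, hw, hw1, -⟩ := hx.2
        obtain ⟨b, hb, hwb, hbU⟩ := (isBasis_countableBasis X).exists_subset_of_mem_open hw (hs x).oU
        exact ⟨b, fun _ => ⟨hb, hbU, w, hwb, hw1⟩⟩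
      · exact ⟨∅, fun h => absurd h hx⟩
    choose b hb using this
    apply Set.MapsTo.countable_of_injOn (t := countableBasis X) (f := b)
      (fun x hx => (hb x hx).1) _ (countable_countableBasis X)
    intro x hx y hy hxy
    by_contra hne
    have hbx := hb x hx
    have hby := hb y hy
    rcases htri x hx.1 y hy.1 hne with ⟨h1, h2⟩ | ⟨h1, h2⟩
    · -- x < y
      obtain ⟨w, hwb, hw⟩ := hby.2.2
      exact hw x hx.1 h1 (hbx.2.1 (by rw [hxy]; exact hwb))
    · obtain ⟨w, hwb, hw⟩ := hbx.2.2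
      exact hw y hy.1 h2 (hby.2.1 (by rw [← hxy]; exact hwb))
  have hSV : SV.Countable := by
    have : ∀ x, ∃ b : Set X, x ∈ SV → b ∈ countableBasis X ∧ b ⊆ V x ∧ ∃ w ∈ b,
        (∀ z ∈ S, z ∈ V x → w ∉ V z) := by
      intro x
      by_cases hx : x ∈ SV
      · obtain ⟨w, hw, -, hw1⟩ := hx.2
        obtain ⟨b, hb, hwb, hbU⟩ := (isBasis_countableBasis X).exists_subset_of_mem_open hw (hs x).oV
        exact ⟨b, fun _ => ⟨hb, hbU, w, hwb, hw1⟩⟩
      · exact ⟨∅, fun h => absurd h hx⟩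
    choose b hb using this
    apply Set.MapsTo.countable_of_injOn (t := countableBasis X) (f := b)
      (fun x hx => (hb x hx).1) _ (countable_countableBasis X)
    intro x hx y hy hxy
    by_contra hne
    have hbx := hb x hx
    have hby := hb y hy
    rcases htri x hx.1 y hy.1 hne with ⟨h1, h2⟩ | ⟨h1, h2⟩
    · -- x < y : y ∈ V x
      obtain ⟨w, hwb, hw⟩ := hbx.2.2
      exact hw y hy.1 h2 (hby.2.1 (by rw [← hxy]; exact hwb))
    · obtain ⟨w, hwb, hw⟩ := hby.2.2
      exact hw x hx.1 h1 (hbx.2.1 (by rw [hxy]; exact hwb))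
  have hgood : (S \ (SU ∪ SV)).Nonempty := by
    by_contra hn
    rw [Set.not_nonempty_iff_eq_empty, Set.sdiff_eq_empty] at hn
    exact hk0 ((hSU.union hSV).mono hn)
  obtain ⟨x, hxS, hxn⟩ := hgood
  have hcover : ∀ w : X, w ≠ x → w ≠ q x →
      (∃ y ∈ S, y ∈ U x ∧ w ∈ U y) ∨ (∃ z ∈ S, z ∈ V x ∧ w ∈ V z) := by
    intro w hwx hwq
    by_contra hn
    push Not at hn
    obtain ⟨hn1, hn2⟩ := hn
    apply hxn
    rcases (hs x).mem hwx hwq with h | h
    · left; exact ⟨hxS, w, h, hn1, hn2⟩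
    · right; exact ⟨hxS, w, h, hn1, hn2⟩
  refine ⟨x, ?_⟩
  intro W hW hxW
  -- small neighbourhood W'
  obtain ⟨W', hW', hxW', hclW'⟩ : ∃ W' : Set X, IsOpen W' ∧ x ∈ W' ∧ closure W' ⊆ W ∩ (closure (O x))ᶜ := by
    have hopen : IsOpen (W ∩ (closure (O x))ᶜ) := hW.inter isClosed_closure.isOpen_compl
    have hmem' : x ∈ W ∩ (closure (O x))ᶜ := ⟨hxW, hxO x⟩
    obtain ⟨F, hF, hFc, hFs⟩ := exists_mem_nhds_isClosed_subset (hopen.mem_nhds hmem')
    exact ⟨interior F, isOpen_interior, mem_interior_iff_mem_nhds.mpr hF,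
      (closure_minimal interior_subset hFc).trans hFs⟩
  have hnq : ∀ w ∈ closure W', ∀ y ∈ S, w ≠ q y := by
    rintro w hw y hy rfl
    apply (hclW' hw).2
    rw [hOeq x hxS y hy]
    exact subset_closure (hqO y)
  -- compact frontier
  have hfc : IsCompact (frontier W') := isClosed_frontier.isCompact
  let ι := {y : X // y ∈ S ∧ (y ∈ U x ∨ y ∈ V x)}
  let D : ι → Set X := fun y => {w | (y.1 ∈ U x ∧ w ∈ U y.1) ∨ (y.1 ∈ V x ∧ w ∈ V y.1)}
  have hD : ∀ i, IsOpen (D i) := by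
    intro i
    have : D i = ({w | i.1 ∈ U x} ∩ U i.1) ∪ ({w | i.1 ∈ V x} ∩ V i.1) := by
      ext w; simp [D]
    rw [this]
    exact (isOpen_const.inter (hs i.1).oU).union (isOpen_const.inter (hs i.1).oV)
  have hcovD : frontier W' ⊆ ⋃ i, D i := by
    intro w hw
    have hwx : w ≠ x := by
      rintro rfl
      exact notMem_of_mem_frontier hW' hw hxW'
    rw [Set.mem_iUnion]
    rcases hcover w hwx (hnq w hw.1 x hxS) with ⟨y, h1, h2, h3⟩ | ⟨y, h1, h2, h3⟩
    · exact ⟨⟨y, h1, Or.inl h2⟩, Or.inl ⟨h2, h3⟩⟩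
    · exact ⟨⟨y, h1, Or.inr h2⟩, Or.inr ⟨h2, h3⟩⟩
  obtain ⟨t, ht⟩ := hfc.elim_finite_subcover D hD hcovD
  -- E i: the side of i containing x
  let E : ι → Set X := fun y => {w | (y.1 ∈ U x ∧ w ∈ V y.1) ∨ (y.1 ∈ V x ∧ w ∈ U y.1)}
  have hE : ∀ i, IsOpen (E i) := by
    intro i
    have : E i = ({w | i.1 ∈ U x} ∩ V i.1) ∪ ({w | i.1 ∈ V x} ∩ U i.1) := by
      ext w; simp [E]
    rw [this]
    exact (isOpen_const.inter (hs i.1).oV).union (isOpen_const.inter (hs i.1).oU)
  have hxE : ∀ i, x ∈ E i := by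
    rintro ⟨y, hyS, hy⟩
    have hne : y ≠ x := by
      rintro rfl
      rcases hy with h | h
      · exact (hs y).aU h
      · exact (hs y).aV h
    rcases htri y hyS x hxS hne with ⟨h1, h2⟩ | ⟨h1, h2⟩
    · exact Or.inl ⟨h1, h2⟩
    · exact Or.inr ⟨h1, h2⟩
  have hDE : ∀ i, Disjoint (D i) (E i) := by
    rintro ⟨y, hyS, hy⟩
    rw [Set.disjoint_left]
    rintro w (⟨h1, h2⟩ | ⟨h1, h2⟩) (⟨h3, h4⟩ | ⟨h3, h4⟩)
    · exact (hs y).nUV h2 h4
    · exact (hs x).nUV h1 h3
    · exact (hs x).nUV h3 h1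
    · exact (hs y).nUV h4 h2
  -- outside q, every point is in D i, E i or equals i
  have hDEi : ∀ i : ι, ∀ w : X, w ≠ i.1 → w ≠ q i.1 → w ∈ D i ∨ w ∈ E i := by
    rintro ⟨y, hyS, hy⟩ w hwy hwq
    rcases (hs y).mem hwy hwq with h | h <;> rcases hy with h' | h'
    · left; exact Or.inl ⟨h', h⟩
    · right; exact Or.inr ⟨h', h⟩
    · right; exact Or.inl ⟨h', h⟩
    · left; exact Or.inr ⟨h', h⟩
  let N : Set X := W' ∩ ⋂ i ∈ t, E i
  have hN : IsOpen N := hW'.inter (isOpen_biInter_finset (fun i _ => hE i))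
  have hxN : x ∈ N := ⟨hxW', by simp only [Set.mem_iInter]; intro i _; exact hxE i⟩
  have hNW : closure N ⊆ closure W' := closure_mono Set.inter_subset_left
  have hNE : ∀ i ∈ t, closure N ⊆ (D i)ᶜ := by
    intro i hi
    apply closure_minimal
    · intro w hw hwD
      have : w ∈ E i := by
        have := hw.2
        simp only [Set.mem_iInter] at this
        exact this i hi
      exact Set.disjoint_left.mp (hDE i) hwD this
    · exact (hD i).isClosed_compl
  have hfrN : ∀ w ∈ frontier N, ∃ i ∈ t, w = i.1 := by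
    intro w hw
    have hwc : w ∈ closure W' := hNW hw.1
    have hwW : w ∈ W' := by
      by_contra hn
      have := ht (mem_frontier_of hW' hwc hn)
      rw [Set.mem_iUnion₂] at this
      obtain ⟨i, hi, hwi⟩ := this
      exact hNE i hi hw.1 hwi
    by_contra hn
    push Not at hn
    apply notMem_of_mem_frontier hN hw
    refine ⟨hwW, ?_⟩
    simp only [Set.mem_iInter]
    intro i hi
    rcases hDEi i w (hn i hi) (hnq w hwc i.1 i.2.1) with h | h
    · exact absurd h (hNE i hi hw.1)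
    · exact h
  have hqN : q x ∉ N := fun h => hnq (q x) (subset_closure h.1) x hxS rfl
  have hfrx : ∀ w ∈ frontier N, w ≠ x := by
    rintro w hw rfl
    exact notMem_of_mem_frontier hN hw hxN
  -- at most one frontier point on each side
  have hone : ∀ w ∈ frontier N, ∀ w' ∈ frontier N,
      ((w ∈ U x ∧ w' ∈ U x) ∨ (w ∈ V x ∧ w' ∈ V x)) → w = w' := by
    intro w hw w' hw' hside
    obtain ⟨i, hi, rfl⟩ := hfrN w hw
    obtain ⟨j, hj, rfl⟩ := hfrN w' hw'
    by_contra hne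
    have h1 : i.1 ∉ D j := hNE j hj hw.1
    have h2 : j.1 ∉ D i := hNE i hi hw'.1
    rcases hside with ⟨a1, a2⟩ | ⟨a1, a2⟩
    · rcases htri i.1 i.2.1 j.1 j.2.1 hne with ⟨b1, b2⟩ | ⟨b1, b2⟩
      · exact h1 (Or.inl ⟨a2, b1⟩)
      · exact h2 (Or.inl ⟨a1, b2⟩)
    · rcases htri i.1 i.2.1 j.1 j.2.1 hne with ⟨b1, b2⟩ | ⟨b1, b2⟩
      · exact h2 (Or.inr ⟨a1, b2⟩)
      · exact h1 (Or.inr ⟨a2, b1⟩)
  have hsideN : ∀ w ∈ frontier N, w ∈ U x ∨ w ∈ V x := by
    intro w hw
    obtain ⟨i, hi, rfl⟩ := hfrN w hw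
    exact i.2.2
  have hfrq : q x ∉ frontier N := fun h => hnq (q x) (hNW h.1) x hxS rfl
  -- existence on both sides
  have hexU : ∃ y ∈ frontier N, y ∈ U x := by
    by_contra hn
    push Not at hn
    have hall : ∀ w ∈ frontier N, w ∈ V x := by
      intro w hw
      rcases hsideN w hw with h | h
      · exact absurd h (hn w hw)
      · exact h
    rcases (frontier N).eq_empty_or_nonempty with he | ⟨c, hc⟩
    · exact region_one hA hN ⟨x, hxN⟩ (c := x) (z := q x) (by rw [he]; exact Set.empty_subset _)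
        hqN (hs x).ne.symm
    · apply region_one hA hN ⟨x, hxN⟩ (c := c) (z := q x) _ hqN (fun h => hfrq (h ▸ hc))
      intro w hw
      exact hone w hw c hc (Or.inr ⟨hall w hw, hall c hc⟩)
  have hexV : ∃ z ∈ frontier N, z ∈ V x := by
    by_contra hn
    push Not at hn
    have hall : ∀ w ∈ frontier N, w ∈ U x := by
      intro w hw
      rcases hsideN w hw with h | h
      · exact h
      · exact absurd h (hn w hw)
    rcases (frontier N).eq_empty_or_nonempty with he | ⟨c, hc⟩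
    · exact region_one hA hN ⟨x, hxN⟩ (c := x) (z := q x) (by rw [he]; exact Set.empty_subset _)
        hqN (hs x).ne.symm
    · apply region_one hA hN ⟨x, hxN⟩ (c := c) (z := q x) _ hqN (fun h => hfrq (h ▸ hc))
      intro w hw
      exact hone w hw c hc (Or.inl ⟨hall w hw, hall c hc⟩)
  obtain ⟨y, hyN, hyU⟩ := hexU
  obtain ⟨z, hzN, hzV⟩ := hexV
  have hfr2 : ∀ w ∈ frontier N, w = y ∨ w = z := by
    intro w hw
    rcases hsideN w hw with h | h
    · left; exact hone w hw y hyN (Or.inl ⟨h, hyU⟩)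
    · right; exact hone w hw z hzN (Or.inr ⟨h, hzV⟩)
  have hclN : closure N ⊆ closure W' := hNW
  -- frontier of the two halves
  have hhalf : ∀ P Q : Set X, ∀ y z : X, Sep x (q x) P Q → y ∈ P → z ∈ Q → y ∈ frontier N →
      z ∈ frontier N → (∀ w ∈ frontier N, w = y ∨ w = z) → frontier (N ∩ P) = {x, y} := by
    intro P Q y z hPQ hyP hzQ hyN hzN hfr2
    have hopen : IsOpen (N ∩ P) := hN.inter hPQ.oU
    have hnon : (N ∩ P).Nonempty := by
      have := hPQ.a_mem hA
      rw [mem_closure_iff] at this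
      exact this N hN hxN
    apply region_two hA hopen hnon (z := z)
    · intro w hw
      have hw1 : w ∈ closure N := closure_mono Set.inter_subset_left hw.1
      have hw2 : w ∈ closure P := closure_mono Set.inter_subset_right hw.1
      have hwq : w ≠ q x := hnq w (hNW hw1) x hxS
      have hwn : w ∉ N ∩ P := notMem_of_mem_frontier hopen hw
      rcases hPQ.closure_sub hw2 with h | h | h
      · right
        have hwN : w ∉ N := fun h' => hwn ⟨h', h⟩
        rcases hfr2 w (mem_frontier_of hN hw1 hwN) with h3 | h3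
        · exact h3
        · exfalso
          rw [h3] at h
          exact hPQ.nUV h hzQ
      · left; exact h
      · exact absurd h hwq
    · intro h; exact hPQ.nUV h.2 hzQ
    · rintro rfl; exact hPQ.aV hzQ
    · rintro rfl; exact hPQ.nUV hyP hzQ
  refine ⟨N ∩ U x, N ∩ V x, y, z, ?_, ?_, ?_⟩
  · constructor
    · exact hN.inter (hs x).oU
    · exact hN.inter (hs x).oV
    · have : insert x (N ∩ U x ∪ N ∩ V x) = N := by
        ext w
        constructor
        · rintro (h | h | h)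
          · rw [h]; exact hxN
          · exact h.1
          · exact h.1
        · intro hw
          by_cases hwx : w = x
          · left; exact hwx
          · right
            have hwq : w ≠ q x := fun h => hqN (h ▸ hw)
            rcases (hs x).mem hwx hwq with h | h
            · left; exact ⟨hw, h⟩
            · right; exact ⟨hw, h⟩
      rw [this]; exact hN
    · exact (hs x).dis.mono Set.inter_subset_right Set.inter_subset_right
    · intro h; exact (hs x).aU h.2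
    · intro h; exact (hs x).aV h.2
    · rintro rfl; exact (hs y).aU hyU
    · rintro rfl; exact (hs z).aV hzV
    · exact hhalf (U x) (V x) y z (hs x) hyU hzV hyN hzN hfr2
    · exact hhalf (V x) (U x) z y (hs x).symm hzV hyU hzN hyN (fun w hw => (hfr2 w hw).symm)
  · exact (closure_mono Set.inter_subset_left).trans (hNW.trans (hclW'.trans Set.inter_subset_left))
  · exact (closure_mono Set.inter_subset_left).trans (hNW.trans (hclW'.trans Set.inter_subset_left))

end Pool.Agent.Helper531.Gordh
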