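import Mathlib
import Pool.Agent.Helper531.Exist

set_option autoImplicit false

namespace Pool.Agent.Helper531.Gordh

open Set TopologicalSpace

variable {X : Type*} [TopologicalSpace X]

theorem LocSep.map {x : X} (hx : LocSep x) (h : X ≃ₜ X) : LocSep (h x) := by
  intro W hW hxW
  obtain ⟨N₁, N₂, y, z, g, h1, h2⟩ := hx (h ⁻¹' W) (hW.preimage h.continuous) hxW
  refine ⟨h '' N₁, h '' N₂, h y, h z, ?_, ?_, ?_⟩
  · constructor
    · exact h.isOpenMap _ g.o1
    · exact h.isOpenMap _ g.o2
    · have := h.isOpenMap _ g.oN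
      rwa [Set.image_insert_eq, Set.image_union] at this
    · exact (Set.disjoint_image_iff h.injective).mpr g.dis
    · rintro ⟨w, hw, hwx⟩
      exact g.x1 (h.injective hwx ▸ hw)
    · rintro ⟨w, hw, hwx⟩
      exact g.x2 (h.injective hwx ▸ hw)
    · exact fun e => g.yx (h.injective e)
    · exact fun e => g.zx (h.injective e)
    · rw [← h.image_frontier, g.f1, Set.image_pair]
    · rw [← h.image_frontier, g.f2, Set.image_pair]
  · rw [← h.image_closure]
    exact (Set.image_mono h1).trans (Set.image_preimage_subset _ _)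
  · rw [← h.image_closure]
    exact (Set.image_mono h2).trans (Set.image_preimage_subset _ _)

namespace Germ

variable {x y z : X} {N₁ N₂ : Set X}

theorem symm (g : Germ x N₁ N₂ y z) : Germ x N₂ N₁ z y :=
  ⟨g.o2, g.o1, by rw [Set.union_comm]; exact g.oN, g.dis.symm, g.x2, g.x1, g.zx, g.yx, g.f2, g.f1⟩

theorem y1 (g : Germ x N₁ N₂ y z) : y ∉ N₁ := by
  apply notMem_of_mem_frontier g.o1
  rw [g.f1]; right; rfl

theorem z2 (g : Germ x N₁ N₂ y z) : z ∉ N₂ := g.symm.y1

theorem closure1 (g : Germ x N₁ N₂ y z) : closure N₁ = N₁ ∪ {x, y} := by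
  rw [← g.f1, closure_eq_self_union_frontier]

theorem closure2 (g : Germ x N₁ N₂ y z) : closure N₂ = N₂ ∪ {x, z} := g.symm.closure1

theorem ne1 (g : Germ x N₁ N₂ y z) : N₁.Nonempty := by
  rw [← closure_nonempty_iff, g.closure1]
  exact ⟨x, Or.inr (Or.inl rfl)⟩

/-- the half neighbourhood with its outer end point is preconnected -/
theorem preOut [PreconnectedSpace X] (hA : NoCut X) (g : Germ x N₁ N₂ y z) :
    IsPreconnected (insert y N₁) := by
  apply region_insert hA g.o1 (t := x) _ g.y1 g.yx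
  rw [g.f1, Set.pair_comm]

/-- the half neighbourhood with its inner end point is preconnected -/
theorem preIn [PreconnectedSpace X] (hA : NoCut X) (g : Germ x N₁ N₂ y z) :
    IsPreconnected (insert x N₁) := by
  apply region_insert hA g.o1 (t := y) _ g.x1 g.yx.symm
  rw [g.f1]

theorem preFull [PreconnectedSpace X] (hA : NoCut X) (g : Germ x N₁ N₂ y z) :
    IsPreconnected (insert x (N₁ ∪ N₂)) := by
  have : insert x (N₁ ∪ N₂) = insert x N₁ ∪ insert x N₂ := by
    ext w; simp only [Set.mem_insert_iff, Set.mem_union]; tauto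
  rw [this]
  exact (g.preIn hA).union x (Set.mem_insert _ _) (Set.mem_insert _ _) (g.symm.preIn hA)

theorem outSub (g : Germ x N₁ N₂ y z) : insert y N₁ ⊆ closure N₁ := by
  rw [g.closure1]
  rintro w (h | h)
  · right; right; exact h
  · left; exact h

theorem xOut (g : Germ x N₁ N₂ y z) : x ∉ insert y N₁ := by
  rintro (h | h)
  · exact g.yx h.symm
  · exact g.x1 h

end Germ

/-- Two germs only: three disjoint open sets with frontier in a finite set `F ∪ {a}` cannot all
accumulate at `a`. -/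
theorem two_germs [T1Space X] [PreconnectedSpace X] (hA : NoCut X) {a : X} (ha : LocSep a) {F : Set X}
    (hF : F.Finite) (haF : a ∉ F) {A B C : Set X} (oA : IsOpen A) (oB : IsOpen B) (oC : IsOpen C)
    (dAB : Disjoint A B) (dAC : Disjoint A C) (dBC : Disjoint B C)
    (fA : frontier A ⊆ insert a F) (fB : frontier B ⊆ insert a F) (fC : frontier C ⊆ insert a F)
    (cA : a ∈ frontier A) (cB : a ∈ frontier B) (cC : a ∈ frontier C) : False := by
  obtain ⟨N₁, N₂, y, z, g, h1, h2⟩ := ha Fᶜ hF.isClosed.isOpen_compl haF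
  -- dichotomy
  have hdich : ∀ G : Set X, IsOpen G → frontier G ⊆ insert a F → a ∈ frontier G →
      insert y N₁ ⊆ G ∨ insert z N₂ ⊆ G := by
    intro G hG hfr haG
    have e1 : insert y N₁ ⊆ G ∨ Disjoint (insert y N₁) G := by
      apply subset_or_disjoint (g.preOut hA) hG
      intro w hw hwf
      rcases hfr hwf with h | h
      · exact g.xOut (h ▸ hw)
      · exact h1 (g.outSub hw) h
    have e2 : insert z N₂ ⊆ G ∨ Disjoint (insert z N₂) G := by
      apply subset_or_disjoint (g.symm.preOut hA) hG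
      intro w hw hwf
      rcases hfr hwf with h | h
      · exact g.symm.xOut (h ▸ hw)
      · exact h2 (g.symm.outSub hw) h
    rcases e1 with e1 | e1
    · left; exact e1
    rcases e2 with e2 | e2
    · right; exact e2
    exfalso
    have := haG.1
    rw [mem_closure_iff] at this
    obtain ⟨w, hw, hwG⟩ := this _ g.oN (Set.mem_insert _ _)
    rcases hw with h | h | h
    · exact notMem_of_mem_frontier hG haG (h ▸ hwG)
    · exact Set.disjoint_left.mp e1 (Set.mem_insert_of_mem _ h) hwG
    · exact Set.disjoint_left.mp e2 (Set.mem_insert_of_mem _ h) hwG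
  have m1 : y ∈ insert y N₁ := Set.mem_insert _ _
  have m2 : z ∈ insert z N₂ := Set.mem_insert _ _
  rcases hdich A oA fA cA with kA | kA <;> rcases hdich B oB fB cB with kB | kB <;>
    rcases hdich C oC fC cC with kC | kC
  · exact Set.disjoint_left.mp dAB (kA m1) (kB m1)
  · exact Set.disjoint_left.mp dAB (kA m1) (kB m1)
  · exact Set.disjoint_left.mp dAC (kA m1) (kC m1)
  · exact Set.disjoint_left.mp dBC (kB m2) (kC m2)
  · exact Set.disjoint_left.mp dBC (kB m1) (kC m1)
  · exact Set.disjoint_left.mp dAC (kA m2) (kC m2)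
  · exact Set.disjoint_left.mp dAB (kA m2) (kB m2)
  · exact Set.disjoint_left.mp dAB (kA m2) (kB m2)

/-- Every pair of distinct points separates. -/
theorem pairs_separate [T2Space X] [CompactSpace X] [PreconnectedSpace X] (hA : NoCut X)
    (hL : ∀ x : X, LocSep x) {a z : X} (haz : a ≠ z) : ¬ IsPreconnected ({a, z}ᶜ : Set X) := by
  intro hpre
  let 𝒯 : Set (Set X) := {U | IsOpen U ∧ ∃ t, t ≠ a ∧ frontier U = {a, t} ∧ z ∉ closure U}
  -- nonempty
  obtain ⟨U0, hU0⟩ : ∃ U, U ∈ 𝒯 := by
    obtain ⟨N₁, N₂, y, w, g, h1, h2⟩ := hL a {z}ᶜ isOpen_compl_singleton haz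
    exact ⟨N₁, g.o1, y, g.yx, g.f1, fun h => h1 h rfl⟩
  -- chains
  have hchain : ∀ c ⊆ 𝒯, IsChain (fun x1 x2 => x1 ⊆ x2) c → c.Nonempty →
      ∃ ub ∈ 𝒯, ∀ s ∈ c, s ⊆ ub := by
    intro c hc hch hcne
    refine ⟨⋃₀ c, ?_, fun s hs => Set.subset_sUnion_of_mem hs⟩
    have hop : IsOpen (⋃₀ c) := isOpen_sUnion (fun s hs => (hc hs).1)
    have ha_not : ∀ U ∈ c, a ∉ U := by
      intro U hU
      obtain ⟨hUo, t, hta, hfr, -⟩ := hc hU
      apply notMem_of_mem_frontier hUo
      rw [hfr]; left; rfl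
    have haU : a ∉ ⋃₀ c := by
      rintro ⟨U, hU, haU⟩
      exact ha_not U hU haU
    have hzU : z ∉ ⋃₀ c := by
      rintro ⟨U, hU, hzU⟩
      obtain ⟨-, t, -, -, hz⟩ := hc hU
      exact hz (subset_closure hzU)
    obtain ⟨U1, hU1⟩ := hcne
    have hacl : a ∈ closure (⋃₀ c) := by
      obtain ⟨hUo, t, hta, hfr, -⟩ := hc hU1
      have : a ∈ frontier U1 := by rw [hfr]; left; rfl
      exact closure_mono (Set.subset_sUnion_of_mem hU1) this.1
    have hne : (⋃₀ c).Nonempty := closure_nonempty_iff.mp ⟨a, hacl⟩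
    have hafr : a ∈ frontier (⋃₀ c) := mem_frontier_of hop hacl haU
    have hex : ∃ t ∈ frontier (⋃₀ c), t ≠ a := by
      by_contra hn
      push Not at hn
      exact region_one hA hop hne (c := a) (z := z) (fun w hw => hn w hw) hzU haz.symm
    obtain ⟨t, htfr, hta⟩ := hex
    have huniq : ∀ s ∈ frontier (⋃₀ c), s = a ∨ s = t := by
      intro s hs
      by_contra hn
      push Not at hn
      obtain ⟨hsa, hst⟩ := hn
      obtain ⟨u, v, hu, hv, hsu, htv, huv⟩ := t2_separation hst
      obtain ⟨N₁, N₂, y1, y2, g, g1, g2⟩ := hL s (u ∩ {a}ᶜ) (hu.inter isOpen_compl_singleton) ⟨hsu, hsa⟩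
      obtain ⟨M₁, M₂, w1, w2, m, m1, m2⟩ := hL t (v ∩ {a}ᶜ) (hv.inter isOpen_compl_singleton) ⟨htv, hta⟩
      -- if U ∈ c meets the nbhd, then the frontier point is in it
      have hfr : ∀ (p : X) (P₁ P₂ : Set X) (p1 p2 : X) (W : Set X), Germ p P₁ P₂ p1 p2 →
          closure P₁ ⊆ W ∩ {a}ᶜ → closure P₂ ⊆ W ∩ {a}ᶜ → p ≠ a → p ∈ W → p ∉ ⋃₀ c →
          ∀ U ∈ c, (insert p (P₁ ∪ P₂) ∩ U).Nonempty → ∃ r ∈ W, r ∈ frontier U ∧ r ≠ a := by
        intro p P₁ P₂ p1 p2 W gp hP1 hP2 hpa hpW hp U hU hmeet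
        by_contra hn
        push Not at hn
        have hsub : insert p (P₁ ∪ P₂) ⊆ W ∩ {a}ᶜ := by
          rintro w (h | h | h)
          · rw [h]; exact ⟨hpW, hpa⟩
          · exact hP1 (subset_closure h)
          · exact hP2 (subset_closure h)
        have := subset_of_no_frontier (gp.preFull hA) (G := U)
          (fun w hw hwf => (hsub hw).2 (hn w (hsub hw).1 hwf)) hmeet
        exact hp ⟨U, hU, interior_subset (this (Set.mem_insert _ _))⟩
      have e1 : ∃ U ∈ c, (insert s (N₁ ∪ N₂) ∩ U).Nonempty := by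
        have := hs.1
        rw [mem_closure_iff] at this
        obtain ⟨w, hw, U, hU, hwU⟩ := this _ g.oN (Set.mem_insert _ _)
        exact ⟨U, hU, w, hw, hwU⟩
      have e2 : ∃ U ∈ c, (insert t (M₁ ∪ M₂) ∩ U).Nonempty := by
        have := htfr.1
        rw [mem_closure_iff] at this
        obtain ⟨w, hw, U, hU, hwU⟩ := this _ m.oN (Set.mem_insert _ _)
        exact ⟨U, hU, w, hw, hwU⟩
      obtain ⟨V1, hV1, hm1⟩ := e1
      obtain ⟨V2, hV2, hm2⟩ := e2
      obtain ⟨V, hV, hVm1, hVm2⟩ : ∃ V ∈ c, (insert s (N₁ ∪ N₂) ∩ V).Nonempty ∧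
          (insert t (M₁ ∪ M₂) ∩ V).Nonempty := by
        rcases hch.total hV1 hV2 with h | h
        · exact ⟨V2, hV2, hm1.mono (Set.inter_subset_inter_right _ h), hm2⟩
        · exact ⟨V1, hV1, hm1, hm2.mono (Set.inter_subset_inter_right _ h)⟩
      obtain ⟨r1, hr1, hr1f, hr1a⟩ := hfr s N₁ N₂ y1 y2 u g g1 g2 hsa hsu
        (notMem_of_mem_frontier hop hs) V hV hVm1
      obtain ⟨r2, hr2, hr2f, hr2a⟩ := hfr t M₁ M₂ w1 w2 v m m1 m2 hta htv
        (notMem_of_mem_frontier hop htfr) V hV hVm2
      obtain ⟨-, t', -, hfrV, -⟩ := hc hV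
      rw [hfrV] at hr1f hr2f
      have : r1 = r2 := by
        rcases hr1f with h | h
        · exact absurd h hr1a
        · rcases hr2f with h' | h'
          · exact absurd h' hr2a
          · rw [Set.mem_singleton_iff] at h h'; rw [h, h']
      exact Set.disjoint_left.mp huv hr1 (this ▸ hr2)
    have hfreq : frontier (⋃₀ c) = {a, t} := by
      ext s
      constructor
      · intro hs; exact huniq s hs
      · rintro (h | h)
        · rw [h]; exact hafr
        · rw [Set.mem_singleton_iff] at h; rw [h]; exact htfr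
    refine ⟨hop, t, hta, hfreq, ?_⟩
    intro hzcl
    have hzt : z = t := by
      rcases huniq z (mem_frontier_of hop hzcl hzU) with h | h
      · exact absurd h.symm haz
      · exact h
    subst hzt
    -- {a,z}ᶜ ⊆ ⋃₀ c
    have hall : ({a, z}ᶜ : Set X) ⊆ ⋃₀ c := by
      have hcov : ({a, z}ᶜ : Set X) ⊆ interior (⋃₀ c) := by
        apply subset_of_no_frontier hpre
        · intro w hw hwf
          rw [hfreq] at hwf
          exact hw hwf
        · obtain ⟨w, hw⟩ := hne
          refine ⟨w, ?_, hw⟩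
          rintro (h | h)
          · exact haU (h ▸ hw)
          · rw [Set.mem_singleton_iff] at h; exact hzU (h ▸ hw)
      exact hcov.trans interior_subset
    obtain ⟨N₁, N₂, y1, y2, g, g1, g2⟩ := hL z {a}ᶜ isOpen_compl_singleton haz.symm
    obtain ⟨p1, hp1⟩ := g.ne1
    obtain ⟨p2, hp2⟩ := g.symm.ne1
    have hp1' : p1 ∈ ({a, z}ᶜ : Set X) := by
      rintro (h | h)
      · exact g1 (subset_closure hp1) h
      · rw [Set.mem_singleton_iff] at h; exact g.x1 (h ▸ hp1)
    have hp2' : p2 ∈ ({a, z}ᶜ : Set X) := by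
      rintro (h | h)
      · exact g2 (subset_closure hp2) h
      · rw [Set.mem_singleton_iff] at h; exact g.x2 (h ▸ hp2)
    obtain ⟨V1, hV1, hm1⟩ := hall hp1'
    obtain ⟨V2, hV2, hm2⟩ := hall hp2'
    obtain ⟨V, hV, hVm1, hVm2⟩ : ∃ V ∈ c, p1 ∈ V ∧ p2 ∈ V := by
      rcases hch.total hV1 hV2 with h | h
      · exact ⟨V2, hV2, h hm1, hm2⟩
      · exact ⟨V1, hV1, hm1, h hm2⟩
    obtain ⟨hVo, t', ht'a, hfrV, hzV⟩ := hc hV
    -- t' in both halves
    have hin : ∀ (P₁ P₂ : Set X) (q1 q2 p : X), Germ z P₁ P₂ q1 q2 → closure P₁ ⊆ {a}ᶜ →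
        p ∈ P₁ → p ∈ V → t' ∈ P₁ := by
      intro P₁ P₂ q1 q2 p gp hP hpP hpV
      by_contra hn
      have h := subset_of_no_frontier (gp.preIn hA) (G := V) ?_ ⟨p, Set.mem_insert_of_mem _ hpP, hpV⟩
      · exact hzV (subset_closure (interior_subset (h (Set.mem_insert _ _))))
      · intro w hw hwf
        rw [hfrV] at hwf
        rcases hwf with h | h
        · rcases hw with h' | h'
          · exact haz (h.symm.trans h')
          · exact hP (subset_closure h') h
        · rw [Set.mem_singleton_iff] at h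
          rcases hw with h' | h'
          · apply hzV
            rw [← h']
            have : w ∈ frontier V := by rw [hfrV, h]; right; rfl
            exact this.1
          · exact hn (h ▸ h')
    have i1 := hin N₁ N₂ y1 y2 p1 g g1 hp1 hVm1
    have i2 := hin N₂ N₁ y2 y1 p2 g.symm g2 hp2 hVm2
    exact Set.disjoint_left.mp g.dis i1 i2
  obtain ⟨M, hM0, hMmax⟩ := zorn_subset_nonempty 𝒯 hchain U0 hU0
  obtain ⟨hMo, t, hta, hfr, hzM⟩ := hMmax.prop
  have htM : t ∈ frontier M := by rw [hfr]; right; rfl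
  have haM : a ∈ frontier M := by rw [hfr]; left; rfl
  have htM' : t ∉ M := notMem_of_mem_frontier hMo htM
  have haM' : a ∉ M := notMem_of_mem_frontier hMo haM
  have htz : t ≠ z := fun h => hzM (h ▸ htM.1)
  have hMcl : closure M = M ∪ {a, t} := by rw [← hfr, closure_eq_self_union_frontier]
  obtain ⟨N₁, N₂, y, w, g, h1, h2⟩ := hL t ({a, z}ᶜ) (Set.Finite.isClosed (by simp)).isOpen_compl
    (by rintro (h | h); exacts [hta h, htz h])
  -- M with a half inside
  have hdich : ∀ (P₁ P₂ : Set X) (q1 q2 : X), Germ t P₁ P₂ q1 q2 → closure P₁ ⊆ {a, z}ᶜ →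
      insert q1 P₁ ⊆ M ∨ Disjoint (insert q1 P₁) M := by
    intro P₁ P₂ q1 q2 gp hP
    apply subset_or_disjoint (gp.preOut hA) hMo
    intro s hs hsf
    rw [hfr] at hsf
    rcases hsf with h | h
    · exact hP (gp.outSub hs) (Or.inl h)
    · exact gp.xOut (h ▸ hs)
  have hext : ∀ (P₁ P₂ : Set X) (q1 q2 : X), Germ t P₁ P₂ q1 q2 → closure P₁ ⊆ {a, z}ᶜ →
      closure P₂ ⊆ {a, z}ᶜ → insert q1 P₁ ⊆ M → Disjoint (insert q2 P₂) M → False := by
    intro P₁ P₂ q1 q2 gp hP1 hP2 hs1 hs2
    have hU' : IsOpen (M ∪ insert t (P₁ ∪ P₂)) := hMo.union gp.oN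
    have hcl : closure (M ∪ insert t (P₁ ∪ P₂)) ⊆ (M ∪ insert t (P₁ ∪ P₂)) ∪ {a, q2} := by
      have : insert t (P₁ ∪ P₂) = {t} ∪ (P₁ ∪ P₂) := rfl
      rw [closure_union, this, closure_union, closure_union, gp.closure1, gp.closure2, hMcl,
        closure_singleton]
      rintro s ((h | h | h) | h | (h | h | h) | (h | h | h))
      · left; left; exact h
      · right; left; exact h
      · left; right; left; exact h
      · left; right; left; exact h
      · left; right; right; left; exact h
      · left; right; left; exact h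
      · left; left; exact hs1 (Or.inl h)
      · left; right; right; right; exact h
      · left; right; left; exact h
      · right; right; exact h
    have hzN : z ∉ insert t (P₁ ∪ P₂) := by
      rintro (h | h | h)
      · exact htz h.symm
      · exact hP1 (subset_closure h) (Or.inr rfl)
      · exact hP2 (subset_closure h) (Or.inr rfl)
    have haN : a ∉ insert t (P₁ ∪ P₂) := by
      rintro (h | h | h)
      · exact hta h.symm
      · exact hP1 (subset_closure h) (Or.inl rfl)
      · exact hP2 (subset_closure h) (Or.inl rfl)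
    have hq2 : q2 ∈ closure P₂ := gp.symm.outSub (Set.mem_insert _ _)
    have hzq : z ≠ q2 := by
      rintro rfl
      exact hP2 hq2 (Or.inr rfl)
    have haq : q2 ≠ a := by
      rintro rfl
      exact hP2 hq2 (Or.inl rfl)
    have hzU : z ∉ M ∪ insert t (P₁ ∪ P₂) := by
      rintro (h | h)
      · exact hzM (subset_closure h)
      · exact hzN h
    have hfr' : frontier (M ∪ insert t (P₁ ∪ P₂)) = {a, q2} := by
      apply region_two hA hU' ⟨t, Or.inr (Or.inl rfl)⟩ _ hzU haz.symm hzq
      intro s hs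
      rcases hcl hs.1 with h | h
      · exact absurd h (notMem_of_mem_frontier hU' hs)
      · exact h
    have hmem : (M ∪ insert t (P₁ ∪ P₂)) ∈ 𝒯 := by
      refine ⟨hU', q2, haq, hfr', ?_⟩
      intro hz
      rcases hcl hz with h | h | h
      · exact hzU h
      · exact haz h.symm
      · exact hzq h
    have := hMmax.le_of_ge hmem Set.subset_union_left
    exact htM' (this (Or.inr (Or.inl rfl)))
  rcases hdich N₁ N₂ y w g h1 with k1 | k1 <;> rcases hdich N₂ N₁ w y g.symm h2 with k2 | k2
  · -- both inside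
    have hU' : IsOpen (M ∪ insert t (N₁ ∪ N₂)) := hMo.union g.oN
    apply region_one hA hU' ⟨t, Or.inr (Or.inl rfl)⟩ (c := a) (z := z) _ _ haz.symm
    · intro s hs
      have hsn := notMem_of_mem_frontier hU' hs
      have hs1 := hs.1
      have : insert t (N₁ ∪ N₂) = {t} ∪ (N₁ ∪ N₂) := rfl
      rw [closure_union, this, closure_union, closure_union, g.closure1, g.closure2, hMcl,
        closure_singleton] at hs1
      by_contra hsa
      apply hsn
      rcases hs1 with (h | h | h) | h | (h | h | h) | (h | h | h)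
      · left; exact h
      · exact absurd h hsa
      · right; left; exact h
      · right; left; exact h
      · right; right; left; exact h
      · right; left; exact h
      · left; exact k1 (Or.inl h)
      · right; right; right; exact h
      · right; left; exact h
      · left; exact k2 (Or.inl h)
    · rintro (h | h | h | h)
      · exact hzM (subset_closure h)
      · exact htz h.symm
      · exact h1 (subset_closure h) (Or.inr rfl)
      · exact h2 (subset_closure h) (Or.inr rfl)
  · exact hext N₁ N₂ y w g h1 h2 k1 k2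
  · exact hext N₂ N₁ w y g.symm h2 h1 k2 k1
  · -- both disjoint
    have := htM.1
    rw [mem_closure_iff] at this
    obtain ⟨s, hs, hsM⟩ := this _ g.oN (Set.mem_insert _ _)
    rcases hs with h | h | h
    · exact htM' (h ▸ hsM)
    · exact Set.disjoint_left.mp k1 (Set.mem_insert_of_mem _ h) hsM
    · exact Set.disjoint_left.mp k2 (Set.mem_insert_of_mem _ h) hsM

end Pool.Agent.Helper531.Gordh
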