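import Mathlib
import Pool.Agent.Helper531.Pairs

set_option autoImplicit false

namespace Pool.Agent.Helper531.Gordh

open Set TopologicalSpace

variable {X : Type*} [TopologicalSpace X]

/-- One side of a separating pair is parametrised injectively by a real function. -/
theorem arc_fun [T2Space X] [CompactSpace X] [PreconnectedSpace X] [SecondCountableTopology X]
    (hA : NoCut X) (hL : ∀ x : X, LocSep x) {a b : X} {U V : Set X} (s : Sep a b U V) :
    ∃ f : X → ℝ, ContinuousOn f (closure U) ∧ f a = 0 ∧ f b = 1 ∧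
      (∀ x ∈ U, 0 < f x ∧ f x < 1) ∧ InjOn f U := by
  classical
  have hPH : ∀ t : X, ∃ P H : Set X, t ∈ U → Sep a t P H ∧ b ∈ H := by
    intro t
    by_cases ht : t ∈ U
    · have hat : a ≠ t := fun h => s.aU (h ▸ ht)
      have hbt : b ≠ t := fun h => s.bU (h ▸ ht)
      obtain ⟨P, H, h⟩ := sep_of_not_preconnected hat (pairs_separate hA hL hat)
      rcases h.mem s.ne.symm hbt with hb | hb
      · exact ⟨H, P, fun _ => ⟨h.symm, hb⟩⟩
      · exact ⟨P, H, fun _ => ⟨h, hb⟩⟩
    · exact ⟨∅, ∅, fun h => absurd h ht⟩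
  choose P H hPH using hPH
  have hS : ∀ t ∈ U, Sep a t (P t) (H t) := fun t ht => (hPH t ht).1
  have hbH : ∀ t ∈ U, b ∈ H t := fun t ht => (hPH t ht).2
  have hta : ∀ t ∈ U, t ≠ a := fun t ht h => s.aU (h ▸ ht)
  have htb : ∀ t ∈ U, t ≠ b := fun t ht h => s.bU (h ▸ ht)
  -- V ∪ {b} ⊆ H t
  have hVH : ∀ t ∈ U, insert b V ⊆ H t := by
    intro t ht
    have hsub : insert b V ⊆ H t ∪ P t := by
      intro w hw
      apply (hS t ht).symm.mem
      · rintro rfl
        rcases hw with h | h
        · exact s.ne h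
        · exact s.aV h
      · rintro rfl
        rcases hw with h | h
        · exact htb w ht h
        · exact s.nUV ht h
    exact (s.symm.swap.pre_insert hA).subset_left_of_subset_union (hS t ht).oV (hS t ht).oU
      (hS t ht).dis.symm hsub ⟨b, Set.mem_insert _ _, hbH t ht⟩
  have hPU : ∀ t ∈ U, P t ⊆ U := by
    intro t ht w hw
    have hwa : w ≠ a := fun h => (hS t ht).aU (h ▸ hw)
    have hwb : w ≠ b := fun h => (hS t ht).nUV hw (h ▸ hbH t ht)
    rcases s.mem hwa hwb with h | h
    · exact h
    · exact absurd (hVH t ht (Set.mem_insert_of_mem _ h)) (fun h' => (hS t ht).nUV hw h')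
  -- order facts
  have hlt1 : ∀ x ∈ U, ∀ t ∈ U, x ∈ P t → insert x (P x) ⊆ P t := by
    intro x hx t ht hxt
    have hsub : insert t (H t) ⊆ H x ∪ P x := by
      intro w hw
      apply (hS x hx).symm.mem
      · rintro rfl
        rcases hw with h | h
        · exact hta t ht h.symm
        · exact (hS t ht).aV h
      · rintro rfl
        rcases hw with h | h
        · subst h; exact (hS w ht).bU hxt
        · exact (hS t ht).nUV hxt h
    have h2 : insert t (H t) ⊆ H x :=
      ((hS t ht).symm.swap.pre_insert hA).subset_left_of_subset_union (hS x hx).oV (hS x hx).oU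
        (hS x hx).dis.symm hsub ⟨b, Set.mem_insert_of_mem _ (hbH t ht), hbH x hx⟩
    intro w hw
    by_cases hwt : w = t
    · exfalso
      rcases hw with h | h
      · rw [h] at hwt; rw [hwt] at hxt; exact (hS t ht).bU hxt
      · exact (hS x hx).nUV h (h2 (hwt ▸ Set.mem_insert _ _))
    have hwa : w ≠ a := by
      rintro rfl
      rcases hw with h | h
      · exact hta x hx h.symm
      · exact (hS x hx).aU h
    rcases (hS t ht).mem hwa hwt with h | h
    · exact h
    · exfalso
      have h3 := h2 (Set.mem_insert_of_mem _ h)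
      rcases hw with h' | h'
      · rw [h'] at h3; exact (hS x hx).bV h3
      · exact (hS x hx).nUV h' h3
  have hlt2 : ∀ x ∈ U, ∀ t ∈ U, x ∉ P t → x ≠ t → t ∈ P x := by
    intro x hx t ht hxt hne
    have hxH : x ∈ H t := by
      rcases (hS t ht).mem (hta x hx) hne with h | h
      · exact absurd h hxt
      · exact h
    have hsub : insert t (P t) ⊆ P x ∪ H x := by
      intro w hw
      apply (hS x hx).mem
      · rintro rfl
        rcases hw with h | h
        · exact hta t ht h.symm
        · exact (hS t ht).aU h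
      · rintro rfl
        rcases hw with h | h
        · exact hne h
        · exact hxt h
    rcases IsPreconnected.subset_or_subset (hS x hx).oU (hS x hx).oV (hS x hx).dis hsub
      ((hS t ht).swap.pre_insert hA) with h | h
    · exact h (Set.mem_insert _ _)
    · exfalso
      have d1 : Disjoint (P x) (P t) := by
        rw [Set.disjoint_left]
        intro w hw1 hw2
        exact (hS x hx).nUV hw1 (h (Set.mem_insert_of_mem _ hw2))
      have d2 : ∀ t ∈ U, Disjoint (P t) V := by
        intro t ht
        rw [Set.disjoint_left]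
        intro w hw1 hw2
        exact s.nUV (hPU t ht hw1) hw2
      apply two_germs hA (hL a) (F := {x, t, b}) (by simp) ?_ (hS x hx).oU (hS t ht).oU s.oV d1
        (d2 x hx) (d2 t ht)
      · rw [(hS x hx).frontier_eq hA]
        rintro w (h | h)
        · left; exact h
        · right; left; exact h
      · rw [(hS t ht).frontier_eq hA]
        rintro w (h | h)
        · left; exact h
        · right; right; left; exact h
      · rw [s.symm.frontier_eq hA]
        rintro w (h | h)
        · left; exact h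
        · right; right; right; exact h
      · rw [(hS x hx).frontier_eq hA]; left; rfl
      · rw [(hS t ht).frontier_eq hA]; left; rfl
      · rw [s.symm.frontier_eq hA]; left; rfl
      · rintro (h | h | h)
        · exact hta x hx h.symm
        · exact hta t ht h.symm
        · exact s.ne h
  have hasym : ∀ x ∈ U, ∀ t ∈ U, x ∈ P t → t ∉ P x := by
    intro x hx t ht h1 h2
    have := hlt1 x hx t ht h1 (Set.mem_insert_of_mem _ h2)
    exact (hS t ht).bU this
  -- membership in H
  have hH1 : ∀ x ∈ U, ∀ t ∈ U, x ∈ P t → t ∈ H x := by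
    intro x hx t ht h
    have hne : t ≠ x := by rintro rfl; exact (hS t ht).bU h
    rcases (hS x hx).mem (hta t ht) hne with h' | h'
    · exact absurd h' (hasym x hx t ht h)
    · exact h'
  have hH2 : ∀ x ∈ U, ∀ t ∈ U, t ∈ H x → x ∈ P t := by
    intro x hx t ht h
    apply hlt2 t ht x hx
    · intro h'; exact (hS x hx).nUV h' h
    · rintro rfl; exact (hS t ht).bV h
  -- betweenness
  have hbet : ∀ x ∈ U, ∀ t ∈ U, x ∈ P t → (P t ∩ H x).Nonempty := by
    intro x hx t ht h
    by_contra hn
    have hsub : P t ⊆ insert x (P x) := by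
      intro w hw
      by_contra hw'
      apply hn
      refine ⟨w, hw, ?_⟩
      have hwa : w ≠ a := fun e => (hS t ht).aU (e ▸ hw)
      have hwx : w ≠ x := fun e => hw' (Or.inl e)
      rcases (hS x hx).mem hwa hwx with h' | h'
      · exact absurd (Or.inr h') hw'
      · exact h'
    have h1 : t ∈ closure (insert x (P x)) := closure_mono hsub ((hS t ht).b_mem hA)
    have h2 : insert x (P x) = {x} ∪ P x := rfl
    rw [h2, closure_union, closure_singleton, (hS x hx).closure_eq hA] at h1
    have hne : t ≠ x := by rintro rfl; exact (hS t ht).bU h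
    rcases h1 with h1 | h1 | h1 | h1
    · exact hne h1
    · exact hasym x hx t ht h h1
    · exact hta t ht h1
    · exact hne h1
  have htop : ∀ x ∈ U, (U ∩ H x).Nonempty := by
    intro x hx
    by_contra hn
    have hsub : U ⊆ insert x (P x) := by
      intro w hw
      by_contra hw'
      apply hn
      refine ⟨w, hw, ?_⟩
      have hwx : w ≠ x := fun e => hw' (Or.inl e)
      rcases (hS x hx).mem (hta w hw) hwx with h' | h'
      · exact absurd (Or.inr h') hw'
      · exact h'
    have h1 : b ∈ closure (insert x (P x)) := closure_mono hsub (s.b_mem hA)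
    have h2 : insert x (P x) = {x} ∪ P x := rfl
    rw [h2, closure_union, closure_singleton, (hS x hx).closure_eq hA] at h1
    rcases h1 with h1 | h1 | h1 | h1
    · exact htb x hx h1.symm
    · exact (hS x hx).nUV h1 (hbH x hx)
    · exact s.ne h1.symm
    · exact htb x hx (Set.mem_singleton_iff.mp h1).symm
  -- countable dense subset
  obtain ⟨D0, hD0c, hD0d⟩ := exists_countable_dense X
  let D := {x : X // x ∈ U ∧ x ∈ D0}
  have : Countable D := by
    have : (U ∩ D0).Countable := hD0c.mono Set.inter_subset_right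
    exact this.to_subtype
  have hdense : ∀ G : Set X, IsOpen G → G.Nonempty → G ⊆ U → ∃ d : D, d.1 ∈ G := by
    intro G hG hGn hGU
    obtain ⟨d, hdG, hd⟩ := hD0d.inter_open_nonempty G hG hGn
    exact ⟨⟨d, hGU hdG, hd⟩, hdG⟩
  let r : D → D → Prop := fun d e => d.1 ∈ P e.1
  have hsto : IsStrictTotalOrder D r :=
    { trichotomous := by
        intro d e h1 h2
        by_contra hne
        exact h2 (hlt2 d.1 d.2.1 e.1 e.2.1 h1 (fun h => hne (Subtype.ext h)))
      irrefl := by
        intro d h
        exact (hS d.1 d.2.1).bU h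
      trans := by
        intro d e f h1 h2
        exact hlt1 e.1 e.2.1 f.1 f.2.1 h2 (Set.mem_insert_of_mem _ h1) }
  let : LinearOrder D := linearOrderOfSTO r
  have hltr : ∀ d e : D, d < e ↔ d.1 ∈ P e.1 := fun d e => Iff.rfl
  have : DenselyOrdered D := by
    constructor
    intro d e hde
    rw [hltr] at hde
    obtain ⟨c, hc⟩ := hdense (P e.1 ∩ H d.1) ((hS e.1 e.2.1).oU.inter (hS d.1 d.2.1).oV)
      (hbet d.1 d.2.1 e.1 e.2.1 hde) (Set.inter_subset_left.trans (hPU e.1 e.2.1))
    exact ⟨c, hH2 d.1 d.2.1 c.1 c.2.1 hc.2, hc.1⟩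
  have : NoMinOrder D := by
    constructor
    intro d
    obtain ⟨c, hc⟩ := hdense (P d.1) (hS d.1 d.2.1).oU (hS d.1 d.2.1).nU (hPU d.1 d.2.1)
    exact ⟨c, hc⟩
  have : NoMaxOrder D := by
    constructor
    intro d
    obtain ⟨c, hc⟩ := hdense (U ∩ H d.1) (s.oU.inter (hS d.1 d.2.1).oV) (htop d.1 d.2.1)
      Set.inter_subset_left
    exact ⟨c, hH2 d.1 d.2.1 c.1 c.2.1 hc.2⟩
  have : Nonempty D := by
    obtain ⟨c, -⟩ := hdense U s.oU s.nU subset_rfl
    exact ⟨c⟩
  have : Nonempty (Ioo (0:ℚ) 1) := ⟨⟨1/2, by norm_num, by norm_num⟩⟩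
  obtain ⟨φ⟩ := Order.iso_of_countable_dense D (Ioo (0:ℚ) 1)
  let v : D → ℝ := fun d => ((φ d : ℚ) : ℝ)
  have hv0 : ∀ d, 0 < v d := fun d => by
    have := (φ d).2.1
    change (0:ℝ) < (((φ d : Ioo (0:ℚ) 1) : ℚ) : ℝ)
    exact_mod_cast this
  have hv1 : ∀ d, v d < 1 := fun d => by
    have := (φ d).2.2
    change (((φ d : Ioo (0:ℚ) 1) : ℚ) : ℝ) < (1:ℝ)
    exact_mod_cast this
  have hvlt : ∀ d e : D, d < e → v d < v e := by
    intro d e h
    have : φ d < φ e := φ.lt_iff_lt.mpr h
    have h2 : (φ d : ℚ) < (φ e : ℚ) := this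
    change (((φ d : Ioo (0:ℚ) 1) : ℚ) : ℝ) < (((φ e : Ioo (0:ℚ) 1) : ℚ) : ℝ)
    exact_mod_cast h2
  have hvle : ∀ d e : D, d ≤ e → v d ≤ v e := by
    intro d e h
    rcases h.lt_or_eq with h | h
    · exact (hvlt d e h).le
    · rw [h]
  have hvex : ∀ p q : ℝ, 0 ≤ p → p < q → q ≤ 1 → ∃ d, p < v d ∧ v d < q := by
    intro p q hp hpq hq
    obtain ⟨c, hc1, hc2⟩ := exists_rat_btwn hpq
    have h0 : (0:ℚ) < c := by
      have : (0:ℝ) < c := lt_of_le_of_lt hp hc1
      exact_mod_cast this
    have h1 : c < (1:ℚ) := by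
      have : (c:ℝ) < 1 := lt_of_lt_of_le hc2 hq
      exact_mod_cast this
    refine ⟨φ.symm ⟨c, h0, h1⟩, ?_, ?_⟩
    · simp only [v, OrderIso.apply_symm_apply]; exact hc1
    · simp only [v, OrderIso.apply_symm_apply]; exact hc2
  let A : X → Set ℝ := fun x => insert 0 {t | ∃ d : D, x ∈ H d.1 ∧ v d = t}
  have hAne : ∀ x, (A x).Nonempty := fun x => ⟨0, Set.mem_insert _ _⟩
  have hAbd : ∀ x, BddAbove (A x) := by
    intro x
    refine ⟨1, ?_⟩
    rintro t (h | ⟨d, -, rfl⟩)
    · rw [h]; norm_num
    · exact (hv1 d).le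
  let f : X → ℝ := fun x => sSup (A x)
  have hf0 : ∀ x, 0 ≤ f x := fun x => le_csSup (hAbd x) (Set.mem_insert _ _)
  have hfd : ∀ x, ∀ d : D, x ∈ H d.1 → v d ≤ f x := fun x d hd =>
    le_csSup (hAbd x) (Set.mem_insert_of_mem _ ⟨d, hd, rfl⟩)
  have hfub : ∀ x c, 0 ≤ c → (∀ d : D, x ∈ H d.1 → v d ≤ c) → f x ≤ c := by
    intro x c hc h
    apply csSup_le (hAne x)
    rintro t (h' | ⟨d, hd, rfl⟩)
    · rw [h']; exact hc
    · exact h d hd
  -- monotonicity of H
  have hHmono : ∀ d e : D, d < e → insert e.1 (H e.1) ⊆ H d.1 := by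
    intro d e hde w hw
    have h1 := hlt1 d.1 d.2.1 e.1 e.2.1 hde
    have hwa : w ≠ a := by
      rintro rfl
      rcases hw with h | h
      · exact hta e.1 e.2.1 h.symm
      · exact (hS e.1 e.2.1).aV h
    have hnot : ∀ w' ∈ P e.1, w' ∉ insert e.1 (H e.1) := by
      rintro w' hw' (h | h)
      · exact (hS e.1 e.2.1).bU (h ▸ hw')
      · exact (hS e.1 e.2.1).nUV hw' h
    have hwd : w ≠ d.1 := by
      rintro rfl
      exact hnot _ (h1 (Set.mem_insert _ _)) hw
    rcases (hS d.1 d.2.1).mem hwa hwd with h | h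
    · exact absurd hw (hnot _ (h1 (Set.mem_insert_of_mem _ h)))
    · exact h
  have hfle : ∀ x, ∀ d : D, x ∉ H d.1 → f x ≤ v d := by
    intro x d hd
    apply hfub x _ (hv0 d).le
    intro e he
    apply hvle
    by_contra hlt
    rw [not_le] at hlt
    exact hd (hHmono d e hlt (Set.mem_insert_of_mem _ he))
  have hfa : f a = 0 := by
    apply le_antisymm _ (hf0 a)
    apply hfub a 0 le_rfl
    intro d hd
    exact absurd hd (hS d.1 d.2.1).aV
  have hf1 : ∀ x, f x ≤ 1 := fun x => hfub x 1 zero_le_one (fun d _ => (hv1 d).le)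
  have hfb : f b = 1 := by
    apply le_antisymm (hf1 b)
    by_contra hlt
    rw [not_le] at hlt
    obtain ⟨d, hd1, hd2⟩ := hvex (f b) 1 (hf0 b) hlt le_rfl
    exact absurd (hfd b d (hbH d.1 d.2.1)) (not_le.mpr hd1)
  have hpos : ∀ x ∈ U, 0 < f x ∧ f x < 1 := by
    intro x hx
    constructor
    · obtain ⟨d, hd⟩ := hdense (P x) (hS x hx).oU (hS x hx).nU (hPU x hx)
      exact lt_of_lt_of_le (hv0 d) (hfd x d (hH1 d.1 d.2.1 x hx hd))
    · obtain ⟨d, hd⟩ := hdense (U ∩ H x) (s.oU.inter (hS x hx).oV) (htop x hx) Set.inter_subset_left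
      have : x ∈ P d.1 := hH2 x hx d.1 d.2.1 hd.2
      exact lt_of_le_of_lt (hfle x d (fun h => (hS d.1 d.2.1).nUV this h)) (hv1 d)
  have hinj : ∀ x ∈ U, ∀ y ∈ U, x ∈ P y → f x < f y := by
    intro x hx y hy hxy
    obtain ⟨d, hd⟩ := hdense (P y ∩ H x) ((hS y hy).oU.inter (hS x hx).oV) (hbet x hx y hy hxy)
      (Set.inter_subset_left.trans (hPU y hy))
    obtain ⟨e, he⟩ := hdense (P y ∩ H d.1) ((hS y hy).oU.inter (hS d.1 d.2.1).oV)
      (hbet d.1 d.2.1 y hy hd.1) (Set.inter_subset_left.trans (hPU y hy))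
    have h1 : f x ≤ v d := by
      apply hfle
      intro h
      exact (hS d.1 d.2.1).nUV (hH2 x hx d.1 d.2.1 hd.2) h
    have h2 : v e ≤ f y := hfd y e (hH1 e.1 e.2.1 y hy he.1)
    have h3 : v d < v e := hvlt d e (hH2 d.1 d.2.1 e.1 e.2.1 he.2)
    linarith
  refine ⟨f, ?_, hfa, hfb, hpos, ?_⟩
  · -- continuity
    intro x0 hx0
    unfold ContinuousWithinAt
    rw [tendsto_order]
    constructor
    · intro q hq
      obtain ⟨t, ht, hqt⟩ := exists_lt_of_lt_csSup (hAne x0) hq
      rcases ht with h | ⟨d, hd, rfl⟩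
      · filter_upwards with x
        rw [h] at hqt
        exact lt_of_lt_of_le hqt (hf0 x)
      · have : H d.1 ∈ nhdsWithin x0 (closure U) :=
          mem_nhdsWithin_of_mem_nhds ((hS d.1 d.2.1).oV.mem_nhds hd)
        filter_upwards [this] with x hx
        exact lt_of_lt_of_le hqt (hfd x d hx)
    · intro q hq
      by_cases hq1 : 1 < q
      · filter_upwards with x
        exact lt_of_le_of_lt (hf1 x) hq1
      rw [not_lt] at hq1
      obtain ⟨d1, hd1, hd1'⟩ := hvex (f x0) q (hf0 x0) hq hq1
      obtain ⟨d2, hd2, hd2'⟩ := hvex (v d1) q (hv0 d1).le hd1' hq1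
      have hlt : d1 < d2 := by
        by_contra h
        rw [not_lt] at h
        exact absurd (hvle _ _ h) (not_le.mpr hd2)
      have hn1 : x0 ∉ H d1.1 := fun h => absurd (hfd x0 d1 h) (not_le.mpr hd1)
      rw [s.closure_eq hA] at hx0
      rcases hx0 with hx0 | hx0 | hx0
      · -- x0 in U
        have hx0P : x0 ∈ P d2.1 := by
          have h1 := hlt1 d1.1 d1.2.1 d2.1 d2.2.1 hlt
          by_cases he : x0 = d1.1
          · rw [he]; exact h1 (Set.mem_insert _ _)
          · rcases (hS d1.1 d1.2.1).mem (hta x0 hx0) he with h | h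
            · exact h1 (Set.mem_insert_of_mem _ h)
            · exact absurd h hn1
        have : P d2.1 ∈ nhdsWithin x0 (closure U) :=
          mem_nhdsWithin_of_mem_nhds ((hS d2.1 d2.2.1).oU.mem_nhds hx0P)
        filter_upwards [this] with x hx
        exact lt_of_le_of_lt (hfle x d2 (fun h => (hS d2.1 d2.2.1).nUV hx h)) hd2'
      · -- x0 = a
        subst hx0
        have hBo : IsOpen (U ∩ H d2.1) := s.oU.inter (hS d2.1 d2.2.1).oV
        have hfB : frontier (U ∩ H d2.1) ⊆ {x0, b, d2.1} := by
          intro w hw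
          rcases frontier_inter_subset _ _ hw with h | h
          · rw [s.frontier_eq hA] at h
            rcases h.1 with h | h
            · left; exact h
            · right; left; exact h
          · rw [(hS d2.1 d2.2.1).symm.frontier_eq hA] at h
            rcases h.2 with h | h
            · left; exact h
            · right; right; exact h
        have hna : x0 ∉ closure (U ∩ H d2.1) := by
          intro hcl
          have haf : x0 ∈ frontier (U ∩ H d2.1) := mem_frontier_of hBo hcl (fun h => s.aU h.1)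
          apply two_germs hA (hL x0) (F := {b, d2.1}) (by simp) ?_ (hS d2.1 d2.2.1).oU hBo s.oV
            ?_ ?_ ?_ ?_ hfB ?_ ?_ haf ?_
          · rintro (h | h)
            · exact s.ne h
            · exact hta d2.1 d2.2.1 h.symm
          · rw [Set.disjoint_left]
            intro w hw1 hw2
            exact (hS d2.1 d2.2.1).nUV hw1 hw2.2
          · rw [Set.disjoint_left]
            intro w hw1 hw2
            exact s.nUV (hPU _ d2.2.1 hw1) hw2
          · rw [Set.disjoint_left]
            intro w hw1 hw2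
            exact s.nUV hw1.1 hw2
          · rw [(hS d2.1 d2.2.1).frontier_eq hA]
            rintro w (h | h)
            · left; exact h
            · right; right; exact h
          · rw [s.symm.frontier_eq hA]
            rintro w (h | h)
            · left; exact h
            · right; left; exact h
          · rw [(hS d2.1 d2.2.1).frontier_eq hA]; left; rfl
          · rw [s.symm.frontier_eq hA]; left; rfl
        have hW : ((closure (U ∩ H d2.1))ᶜ ∩ {b}ᶜ) ∈ nhdsWithin x0 (closure U) := by
          apply mem_nhdsWithin_of_mem_nhds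
          apply (isClosed_closure.isOpen_compl.inter isOpen_compl_singleton).mem_nhds
          exact ⟨hna, s.ne⟩
        filter_upwards [hW, self_mem_nhdsWithin] with x hx hxU
        apply lt_of_le_of_lt (hfle x d2 _) hd2'
        intro hxH
        rw [s.closure_eq hA] at hxU
        rcases hxU with h | h | h
        · exact hx.1 (subset_closure ⟨h, hxH⟩)
        · rw [h] at hxH; exact (hS d2.1 d2.2.1).aV hxH
        · exact hx.2 h
      · -- x0 = b
        exfalso
        rw [Set.mem_singleton_iff] at hx0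
        rw [hx0, hfb] at hq
        linarith
  · intro x hx y hy hxy
    by_contra hne
    by_cases h : x ∈ P y
    · exact absurd hxy (hinj x hx y hy h).ne
    · exact absurd hxy (hinj y hy x hx (hlt2 x hx y hy h hne)).ne'

end Pool.Agent.Helper531.Gordh
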