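import Mathlib

set_option autoImplicit false

namespace Helper531.BCW

open Finset Classical

section Row

variable {V : Type*} [Fintype V]

/-- The row inequality. `A` is a digraph with all out-degrees and in-degrees `k`. -/
theorem row_ineq (A W L : V → V → Prop) (k : ℕ)
    (hout : ∀ x, (∑ y, if A x y then 1 else 0) = k)
    (hin : ∀ y, (∑ x, if A x y then 1 else 0) = k)
    (hrev : ∀ x y, W x y → ¬ A y x)
    (hclo : ∀ x y z, W x y → A y z → W x z ∨ L x z) :
    k * (∑ x, ∑ y, if W x y then 1 else 0)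
      + (∑ x, ∑ z, ∑ y, if W x z ∧ ¬ A x z ∧ A y z ∧ A y x then 1 else 0)
      ≤ (∑ x, ∑ y, ∑ z, if W x y ∧ A y z ∧ A x z then 1 else 0)
        + k * (∑ x, ∑ z, if W x z ∧ ¬ A x z then 1 else 0)
        + k * (∑ x, ∑ z, if L x z then 1 else 0) := by
  have e1 : k * (∑ x, ∑ y, if W x y then 1 else 0)
      = ∑ x, ∑ y, ∑ z, if W x y ∧ A y z then 1 else 0 := by
    rw [Finset.mul_sum]
    refine Finset.sum_congr rfl fun x _ => ?_
    rw [Finset.mul_sum]
    refine Finset.sum_congr rfl fun y _ => ?_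
    by_cases h : W x y
    · simp only [h, true_and, if_true, mul_one]
      exact (hout y).symm
    · simp [h]
  have e2 : k * (∑ x, ∑ z, if W x z ∧ ¬ A x z then 1 else 0)
      = (∑ x, ∑ z, ∑ y, if W x z ∧ ¬ A x z ∧ A y z then 1 else 0) := by
    rw [Finset.mul_sum]
    refine Finset.sum_congr rfl fun x _ => ?_
    rw [Finset.mul_sum]
    refine Finset.sum_congr rfl fun z _ => ?_
    by_cases h : W x z ∧ ¬ A x z
    · simp only [h.1, h.2, not_false_eq_true, true_and, if_true, mul_one]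
      exact (hin z).symm
    · rw [if_neg h, mul_zero]
      symm
      apply Finset.sum_eq_zero
      intro y _
      rw [if_neg]
      rintro ⟨a, b, _⟩
      exact h ⟨a, b⟩
  have e3 : k * (∑ x, ∑ z, if L x z then 1 else 0)
      = ∑ x, ∑ z, ∑ y, if L x z ∧ A y z then 1 else 0 := by
    rw [Finset.mul_sum]
    refine Finset.sum_congr rfl fun x _ => ?_
    rw [Finset.mul_sum]
    refine Finset.sum_congr rfl fun z _ => ?_
    by_cases h : L x z
    · simp only [h, true_and, if_true, mul_one]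
      exact (hin z).symm
    · simp [h]
  have key : (∑ x, ∑ y, ∑ z, if W x y ∧ A y z then 1 else 0)
      + (∑ x, ∑ y, ∑ z, if W x z ∧ ¬ A x z ∧ A y z ∧ A y x then 1 else 0)
      ≤ (∑ x, ∑ y, ∑ z, if W x y ∧ A y z ∧ A x z then 1 else 0)
        + (∑ x, ∑ y, ∑ z, if W x z ∧ ¬ A x z ∧ A y z then 1 else 0)
        + (∑ x, ∑ y, ∑ z, if L x z ∧ A y z then 1 else 0) := by
    simp only [← Finset.sum_add_distrib]
    refine Finset.sum_le_sum fun x _ => Finset.sum_le_sum fun y _ =>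
      Finset.sum_le_sum fun z _ => ?_
    by_cases h1 : W x y
    · by_cases h2 : A y z
      · have h3 := hrev x y h1
        rcases hclo x y z h1 h2 with h4 | h4
        · by_cases h5 : A x z <;> simp [h1, h2, h3, h4, h5]
        · by_cases h5 : A x z <;> by_cases h6 : W x z <;> simp [h1, h2, h3, h4, h5, h6]
      · simp [h2]
    · by_cases h2 : A y z <;> by_cases h5 : A x z <;> by_cases h6 : W x z <;>
        by_cases h7 : A y x <;> simp [h1, h2, h5, h6, h7]
  have c1 : ∀ f : V → V → V → ℕ, (∑ x, ∑ y, ∑ z, f x y z) = ∑ x, ∑ z, ∑ y, f x y z :=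
    fun f => Finset.sum_congr rfl fun x _ => Finset.sum_comm
  rw [e1, e2, e3]
  rw [c1 (fun x y z => if W x z ∧ ¬ A x z ∧ A y z ∧ A y x then 1 else 0),
    c1 (fun x y z => if W x z ∧ ¬ A x z ∧ A y z then 1 else 0),
    c1 (fun x y z => if L x z ∧ A y z then 1 else 0)] at key
  exact key

end Row

section Both

variable {V : Type*} [Fintype V]

/-- The two-sided inequality. -/
theorem two_sided (A W L : V → V → Prop) (k : ℕ)
    (hout : ∀ x, (∑ y, if A x y then 1 else 0) = k)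
    (hin : ∀ y, (∑ x, if A x y then 1 else 0) = k)
    (hA : ∀ x y, A x y → W x y)
    (hrev : ∀ x y, W x y → ¬ A y x)
    (hclo : ∀ x y z, W x y → A y z → W x z ∨ L x z)
    (hclo' : ∀ w x y, W x y → A w x → W w y ∨ L w y) :
    k * (∑ x, ∑ y, if A x y then 1 else 0)
      ≤ (∑ x, ∑ y, ∑ z, if A x y ∧ A y z ∧ A x z then 1 else 0)
        + k * (∑ x, ∑ z, if L x z then 1 else 0) := by
  have h1 := row_ineq A W L k hout hin hrev hclo
  have h2 := row_ineq (fun x y => A y x) (fun x y => W y x) (fun x y => L y x) k hin hout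
    (fun x y h => hrev y x h) (fun x y z h h' => hclo' z y x h h')
  -- notation
  have s1 : (∑ x, ∑ y, if W y x then 1 else 0) = ∑ x, ∑ y, if W x y then 1 else 0 :=
    Finset.sum_comm
  have s2 : (∑ x, ∑ y, if W y x ∧ ¬ A y x then 1 else 0)
      = ∑ x, ∑ y, if W x y ∧ ¬ A x y then 1 else 0 := Finset.sum_comm
  have s3 : (∑ x, ∑ y, if L y x then 1 else 0) = ∑ x, ∑ y, if L x y then 1 else 0 :=
    Finset.sum_comm
  have sW : (∑ x, ∑ y, if W x y then 1 else 0)
      = (∑ x, ∑ y, if A x y then 1 else 0) + ∑ x, ∑ y, if W x y ∧ ¬ A x y then 1 else 0 := by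
    simp only [← Finset.sum_add_distrib]
    refine Finset.sum_congr rfl fun x _ => Finset.sum_congr rfl fun y _ => ?_
    by_cases h : A x y
    · simp [h, hA x y h]
    · by_cases h' : W x y <;> simp [h, h']
  -- a-sums
  have a1 : (∑ x, ∑ y, ∑ z, if W x y ∧ A y z ∧ A x z then 1 else 0)
      = (∑ x, ∑ y, ∑ z, if A x y ∧ A y z ∧ A x z then 1 else 0)
        + ∑ x, ∑ y, ∑ z, if W x y ∧ ¬ A x y ∧ A y z ∧ A x z then 1 else 0 := by
    simp only [← Finset.sum_add_distrib]
    refine Finset.sum_congr rfl fun x _ => Finset.sum_congr rfl fun y _ =>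
      Finset.sum_congr rfl fun z _ => ?_
    by_cases h : A x y
    · simp [h, hA x y h]
    · by_cases h' : W x y <;> simp [h, h']
  have b1 : (∑ x, ∑ y, ∑ z, if W y x ∧ A z y ∧ A z x then 1 else 0)
      = (∑ x, ∑ y, ∑ z, if A x y ∧ A y z ∧ A x z then 1 else 0)
        + ∑ x, ∑ y, ∑ z, if W x y ∧ ¬ A x y ∧ A z y ∧ A z x then 1 else 0 := by
    have t1 : (∑ x, ∑ y, ∑ z, if W y x ∧ A z y ∧ A z x then 1 else 0)
        = ∑ x, ∑ y, ∑ z, if W x y ∧ A z x ∧ A z y then 1 else 0 := Finset.sum_comm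
    have t2 : (∑ x, ∑ y, ∑ z, if A x y ∧ A y z ∧ A x z then 1 else 0)
        = ∑ x, ∑ y, ∑ z, if A x y ∧ A z x ∧ A z y then 1 else 0 := by
      -- rename (x,y,z) -> (z,x,y)
      have : ∀ f : V → V → V → ℕ, (∑ x, ∑ y, ∑ z, f x y z) = ∑ x, ∑ y, ∑ z, f z x y := by
        intro f
        calc (∑ x, ∑ y, ∑ z, f x y z) = ∑ y, ∑ x, ∑ z, f x y z := Finset.sum_comm
          _ = ∑ y, ∑ z, ∑ x, f x y z := Finset.sum_congr rfl fun y _ => Finset.sum_comm
          _ = ∑ x, ∑ y, ∑ z, f z x y := rfl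
      rw [this (fun x y z => if A x y ∧ A y z ∧ A x z then 1 else 0)]
      refine Finset.sum_congr rfl fun x _ => Finset.sum_congr rfl fun y _ =>
        Finset.sum_congr rfl fun z _ => ?_
      by_cases h1 : A x y <;> by_cases h2 : A z x <;> by_cases h3 : A z y <;> simp [h1, h2, h3]
    rw [t1, t2]
    simp only [← Finset.sum_add_distrib]
    refine Finset.sum_congr rfl fun x _ => Finset.sum_congr rfl fun y _ =>
      Finset.sum_congr rfl fun z _ => ?_
    by_cases h : A x y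
    · simp [h, hA x y h]
    · by_cases h' : W x y <;> by_cases h2 : A z x <;> by_cases h3 : A z y <;>
        simp [h, h', h2, h3]
  -- the subtracted sums
  have a2 : (∑ x, ∑ z, ∑ y, if W z x ∧ ¬ A z x ∧ A z y ∧ A x y then 1 else 0)
      = ∑ x, ∑ y, ∑ z, if W x y ∧ ¬ A x y ∧ A y z ∧ A x z then 1 else 0 := by
    rw [Finset.sum_comm]
    refine Finset.sum_congr rfl fun x _ => Finset.sum_congr rfl fun y _ =>
      Finset.sum_congr rfl fun z _ => ?_
    by_cases h : A x y <;> by_cases h' : W x y <;> by_cases h2 : A x z <;> by_cases h3 : A y z <;>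
        simp [h, h', h2, h3]
  have b2 : (∑ x, ∑ z, ∑ y, if W x z ∧ ¬ A x z ∧ A y z ∧ A y x then 1 else 0)
      = ∑ x, ∑ y, ∑ z, if W x y ∧ ¬ A x y ∧ A z y ∧ A z x then 1 else 0 := rfl
  rw [a1, sW, b2] at h1
  rw [s1, s2, s3, b1, sW] at h2
  rw [a2] at h2
  have h1' : k * (∑ x, ∑ y, if A x y then 1 else 0)
      + (∑ x, ∑ y, ∑ z, if W x y ∧ ¬ A x y ∧ A z y ∧ A z x then 1 else 0)
      ≤ (∑ x, ∑ y, ∑ z, if A x y ∧ A y z ∧ A x z then 1 else 0)
        + (∑ x, ∑ y, ∑ z, if W x y ∧ ¬ A x y ∧ A y z ∧ A x z then 1 else 0)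
        + k * (∑ x, ∑ z, if L x z then 1 else 0) := by
    nlinarith [h1]
  have h2' : k * (∑ x, ∑ y, if A x y then 1 else 0)
      + (∑ x, ∑ y, ∑ z, if W x y ∧ ¬ A x y ∧ A y z ∧ A x z then 1 else 0)
      ≤ (∑ x, ∑ y, ∑ z, if A x y ∧ A y z ∧ A x z then 1 else 0)
        + (∑ x, ∑ y, ∑ z, if W x y ∧ ¬ A x y ∧ A z y ∧ A z x then 1 else 0)
        + k * (∑ x, ∑ z, if L x z then 1 else 0) := by
    nlinarith [h2]
  omega

end Both

end Helper531.BCW
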