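import Pool.Agent.Helper531.BCW

set_option autoImplicit false

namespace Helper531.BCW

open Finset Classical

variable {V : Type*}

/-- `R A i x y`: there is a directed walk from `x` to `y` of length at most `i`. -/
def R (A : V → V → Prop) : ℕ → V → V → Prop
  | 0 => fun x y => x = y
  | (i + 1) => fun x y => R A i x y ∨ ∃ z, R A i x z ∧ A z y

theorem R_refl (A : V → V → Prop) (i : ℕ) (x : V) : R A i x x := by
  induction i with
  | zero => rfl
  | succ i ih => exact Or.inl ih

theorem R_adj (A : V → V → Prop) (i : ℕ) (hi : 1 ≤ i) (x y : V) (h : A x y) : R A i x y := by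
  obtain ⟨j, rfl⟩ : ∃ j, i = j + 1 := ⟨i - 1, by omega⟩
  exact Or.inr ⟨x, R_refl A j x, h⟩

theorem R_left (A : V → V → Prop) (i : ℕ) (x w y : V) (h : A x w) (h' : R A i w y) :
    R A (i + 1) x y := by
  induction i generalizing y with
  | zero =>
    have : w = y := h'
    subst this
    exact Or.inr ⟨x, rfl, h⟩
  | succ i ih =>
    rcases h' with h' | ⟨z, hz, hzy⟩
    · exact Or.inl (ih y h')
    · exact Or.inr ⟨z, ih z hz, hzy⟩

theorem R_walk (A : V → V → Prop) (i : ℕ) (x y : V) (h : R A i x y) :
    ∃ m ≤ i, ∃ c : ℕ → V, c 0 = x ∧ c m = y ∧ ∀ j < m, A (c j) (c (j + 1)) := by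
  induction i generalizing y with
  | zero => exact ⟨0, le_refl _, fun _ => x, rfl, h, fun j hj => absurd hj (by omega)⟩
  | succ i ih =>
    rcases h with h | ⟨z, hz, hzy⟩
    · obtain ⟨m, hm, c, h0, h1, h2⟩ := ih y h
      exact ⟨m, by omega, c, h0, h1, h2⟩
    · obtain ⟨m, hm, c, h0, h1, h2⟩ := ih z hz
      refine ⟨m + 1, by omega, fun j => if j ≤ m then c j else y, ?_, ?_, ?_⟩
      · simp [h0]
      · simp
      · intro j hj
        by_cases hjm : j = m
        · subst hjm
          simp [h1, hzy]
        · have : j < m := by omega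
          have h3 := h2 j this
          simp only [show j ≤ m by omega, show j + 1 ≤ m by omega, if_true]
          exact h3

/-- A closed walk contains a directed cycle. -/
theorem cycle_of_closed (A : V → V → Prop) (m : ℕ) (hm : 1 ≤ m) (c : ℕ → V)
    (h : ∀ j < m, A (c j) (c (j + 1))) (hc : c m = c 0) :
    ∃ m', 1 ≤ m' ∧ m' ≤ m ∧ ∃ c : ℕ → V, (∀ i, c (i + m') = c i) ∧ (∀ i, A (c i) (c (i + 1))) ∧
      Set.InjOn c (Set.Iio m') := by
  induction m using Nat.strong_induction_on generalizing c with
  | _ m ih =>
    by_cases hinj : Set.InjOn c (Set.Iio m)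
    · refine ⟨m, hm, le_refl _, fun t => c (t % m), ?_, ?_, ?_⟩
      · intro i
        simp
      · intro i
        have hlt : i % m < m := Nat.mod_lt _ (by omega)
        have h1 := h (i % m) hlt
        show A (c (i % m)) (c ((i + 1) % m))
        by_cases h2 : i % m + 1 < m
        · have : (i + 1) % m = i % m + 1 := by
            rw [Nat.add_mod]
            by_cases h3 : m = 1
            · omega
            · rw [Nat.mod_eq_of_lt (show 1 < m by omega), Nat.mod_eq_of_lt h2]
          rw [this]
          exact h1
        · have h3 : i % m + 1 = m := by omega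
          have : (i + 1) % m = 0 := by
            have h4 : (i + 1) = m * (i / m) + m := by
              have := Nat.div_add_mod i m
              omega
            rw [h4]
            simp
          rw [this, ← hc]
          rw [h3] at h1
          exact h1
      · intro a ha b hb hab
        simp only [Set.mem_Iio] at ha hb
        simp only [Nat.mod_eq_of_lt ha, Nat.mod_eq_of_lt hb] at hab
        exact hinj ha hb hab
    · unfold Set.InjOn at hinj
      push Not at hinj
      obtain ⟨a, ha, b, hb, hab, hne⟩ := hinj
      simp only [Set.mem_Iio] at ha hb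
      have main : ∀ a b : ℕ, a < b → b < m → c a = c b → ∃ m', 1 ≤ m' ∧ m' ≤ m ∧
          ∃ c : ℕ → V, (∀ i, c (i + m') = c i) ∧ (∀ i, A (c i) (c (i + 1))) ∧
            Set.InjOn c (Set.Iio m') := by
        intro a b hab' hbm he
        obtain ⟨m', h1, h2, h3⟩ := ih (b - a) (by omega) (by omega) (fun t => c (a + t))
          (fun j hj => by
            have := h (a + j) (by omega)
            simpa [Nat.add_assoc] using this)
          (by
            show c (a + (b - a)) = c (a + 0)
            rw [show a + (b - a) = b by omega, Nat.add_zero]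
            exact he.symm)
        exact ⟨m', h1, by omega, h3⟩
      rcases Nat.lt_or_gt_of_ne hne with h1 | h1
      · exact main a b h1 hb hab
      · exact main b a h1 ha hab.symm

theorem main_ineq [Fintype V] (A : V → V → Prop) (k g : ℕ) (hg : 2 ≤ g)
    (hloop : ∀ v, ¬ A v v)
    (hout : ∀ x, (∑ y, if A x y then 1 else 0) = k)
    (hin : ∀ y, (∑ x, if A x y then 1 else 0) = k)
    (hcyc : ∀ m : ℕ, 1 ≤ m → m < g → ¬ ∃ c : ℕ → V, (∀ i, c (i + m) = c i) ∧
      (∀ i, A (c i) (c (i + 1))) ∧ Set.InjOn c (Set.Iio m)) :
    k * Fintype.card V + (g - 1) * (Fintype.card V * k ^ 2)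
      ≤ k * Fintype.card V ^ 2
        + (g - 2) * (∑ x, ∑ y, ∑ z, if A x y ∧ A y z ∧ A x z then 1 else 0) := by
  set n := Fintype.card V with hn
  set T := (∑ x, ∑ y, ∑ z, if A x y ∧ A y z ∧ A x z then 1 else 0) with hT
  have hrev : ∀ i, i + 2 ≤ g → ∀ x y, R A i x y → ¬ A y x := by
    intro i hi x y hR hA
    obtain ⟨m, hm, c, h0, h1, h2⟩ := R_walk A i x y hR
    obtain ⟨m', h3, h4, h5⟩ := cycle_of_closed A (m + 1) (by omega)
      (fun j => if j ≤ m then c j else x)
      (by
        intro j hj
        by_cases hjm : j = m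
        · subst hjm
          simp [h1, hA]
        · have h3 := h2 j (by omega)
          simp only [show j ≤ m by omega, show j + 1 ≤ m by omega, if_true]
          exact h3)
      (by simp [h0])
    exact hcyc m' h3 (by omega) h5
  have hE : (∑ x, ∑ y, if A x y then 1 else 0) = n * k := by
    rw [Finset.sum_congr rfl fun x _ => hout x]
    simp [hn]
  -- step
  have hstep : ∀ i, 1 ≤ i → i + 2 ≤ g →
      n * k ^ 2 + k * (∑ x, ∑ y, if R A i x y then 1 else 0)
        ≤ T + k * (∑ x, ∑ y, if R A (i + 1) x y then 1 else 0) := by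
    intro i hi hig
    have h1 := two_sided A (R A i) (fun x y => R A (i + 1) x y ∧ ¬ R A i x y) k hout hin
      (fun x y h => R_adj A i hi x y h) (hrev i hig)
      (fun x y z h h' => by
        by_cases h2 : R A i x z
        · exact Or.inl h2
        · exact Or.inr ⟨Or.inr ⟨y, h, h'⟩, h2⟩)
      (fun w x y h h' => by
        by_cases h2 : R A i w y
        · exact Or.inl h2
        · exact Or.inr ⟨R_left A i w x y h' h, h2⟩)
    rw [hE] at h1
    have h2 : (∑ x, ∑ y, if R A (i + 1) x y then 1 else 0)
        = (∑ x, ∑ y, if R A i x y then 1 else 0)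
          + ∑ x, ∑ z, if R A (i + 1) x z ∧ ¬ R A i x z then 1 else 0 := by
      simp only [← Finset.sum_add_distrib]
      refine Finset.sum_congr rfl fun x _ => Finset.sum_congr rfl fun y _ => ?_
      by_cases h : R A i x y
      · have h' : R A (i + 1) x y := Or.inl h
        simp [h, h']
      · by_cases h' : R A (i + 1) x y <;> simp [h, h']
    rw [h2]
    nlinarith [h1]
  have hbase : n + n * k ≤ (∑ x, ∑ y, if R A 1 x y then 1 else 0) := by
    rw [← hE]
    have h0 : n = ∑ x : V, ∑ y : V, if x = y then 1 else 0 := by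
      simp [hn]
    conv_lhs => rw [h0]
    simp only [← Finset.sum_add_distrib]
    refine Finset.sum_le_sum fun x _ => Finset.sum_le_sum fun y _ => ?_
    by_cases h : x = y
    · subst h
      simp [hloop x, R_refl A 1 x]
    · by_cases h' : A x y
      · simp [h, h', R_adj A 1 (le_refl _) x y h']
      · simp [h, h']
  have hind : ∀ i, i + 2 ≤ g →
      k * n + (i + 1) * (n * k ^ 2) ≤ k * (∑ x, ∑ y, if R A (i + 1) x y then 1 else 0) + i * T := by
    intro i
    induction i with
    | zero =>
      intro _
      have := Nat.mul_le_mul_left k hbase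
      nlinarith [this]
    | succ i ih =>
      intro hi
      have h1 := ih (by omega)
      have h2 := hstep (i + 1) (by omega) (by omega)
      nlinarith [h1, h2]
  have hfin := hind (g - 2) (by omega)
  rw [show g - 2 + 1 = g - 1 by omega] at hfin
  have hle : (∑ x, ∑ y, if R A (g - 1) x y then 1 else 0) ≤ n ^ 2 := by
    calc (∑ x, ∑ y, if R A (g - 1) x y then 1 else 0) ≤ ∑ _x : V, ∑ _y : V, 1 := by
          refine Finset.sum_le_sum fun x _ => Finset.sum_le_sum fun y _ => ?_
          split_ifs <;> omega
      _ = n ^ 2 := by simp [hn, sq]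
  have := Nat.mul_le_mul_left k hle
  omega

end Helper531.BCW
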