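import Mathlib

set_option autoImplicit false

namespace Pool.Agent.Helper531

/-- The set `L(C)` of local separating points of `C`: the points `p` of `C` for which there is an
open set `U` containing `p` such that, with `K` the component of `C ∩ U` that contains `p`, the set
`K \ {p}` is not connected (the empty set counts as connected). -/
def LocalSeparatingPoints {α : Type*} [TopologicalSpace α] (C : Set α) : Set α :=
  {p | p ∈ C ∧ ∃ U : Set α, IsOpen U ∧ p ∈ U ∧ ¬ IsPreconnected (connectedComponentIn (C ∩ U) p \ {p})}

/-- `A` is arcwise connected: any two distinct points of `A` are the endpoints of an arc in `A`. -/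
def ArcwiseConnected {α : Type*} [TopologicalSpace α] (A : Set α) : Prop :=
  ∀ x ∈ A, ∀ y ∈ A, x ≠ y → ∃ γ : unitInterval → α, Continuous γ ∧ Function.Injective γ ∧
    γ 0 = x ∧ γ 1 = y ∧ Set.range γ ⊆ A

end Pool.Agent.Helper531
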