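import Mathlib
import Pool.Agent.Helper531.Arc

set_option autoImplicit false

namespace Pool.Agent.Helper531.Gordh

open Set TopologicalSpace

variable {X : Type*} [TopologicalSpace X]

/-- Assembling the circle from the two sides of a separating pair. -/
theorem circle_of_locSep [T2Space X] [CompactSpace X] [PreconnectedSpace X]
    [SecondCountableTopology X] (hA : NoCut X) (hL : ∀ x : X, LocSep x) {a b : X} {U V : Set X}
    (s : Sep a b U V) : Nonempty (X ≃ₜ Circle) := by
  classical
  obtain ⟨f, hfc, hfa, hfb, hf, hfi⟩ := arc_fun hA hL s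
  obtain ⟨g, hgc, hga, hgb, hg, hgi⟩ := arc_fun hA hL s.symm
  have hUcl := s.closure_eq hA
  have hVcl := s.symm.closure_eq hA
  have hpi : (0:ℝ) < Real.pi := Real.pi_pos
  let θ : X → ℝ := fun x => if x ∈ closure U then Real.pi * f x else -(Real.pi * g x)
  let F : X → Circle := fun x => Circle.exp (θ x)
  have hfrange : ∀ x ∈ closure U, 0 ≤ f x ∧ f x ≤ 1 := by
    intro x hx
    rw [hUcl] at hx
    rcases hx with h | h | h
    · exact ⟨(hf x h).1.le, (hf x h).2.le⟩
    · rw [h, hfa]; norm_num
    · rw [Set.mem_singleton_iff] at h; rw [h, hfb]; norm_num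
  have hnotU : ∀ x, x ∉ closure U → x ∈ V := by
    intro x hx
    rw [hUcl] at hx
    have hxa : x ≠ a := fun h => hx (Or.inr (Or.inl h))
    have hxb : x ≠ b := fun h => hx (Or.inr (Or.inr h))
    rcases s.mem hxa hxb with h | h
    · exact absurd (Or.inl h) hx
    · exact h
  have hVnot : ∀ x ∈ V, x ∉ closure U := by
    intro x hx h
    rw [hUcl] at h
    rcases h with h | h | h
    · exact s.nUV h hx
    · exact s.aV (h ▸ hx)
    · exact s.bV (h ▸ hx)
  have hθ : ∀ x, -Real.pi < θ x ∧ θ x ≤ Real.pi := by
    intro x
    by_cases hx : x ∈ closure U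
    · simp only [θ, if_pos hx]
      obtain ⟨h1, h2⟩ := hfrange x hx
      constructor <;> nlinarith
    · simp only [θ, if_neg hx]
      obtain ⟨h1, h2⟩ := hg x (hnotU x hx)
      constructor <;> nlinarith
  have hfinj : ∀ x ∈ closure U, ∀ y ∈ closure U, f x = f y → x = y := by
    intro x hx y hy hxy
    rw [hUcl] at hx hy
    rcases hx with hx | hx | hx <;> rcases hy with hy | hy | hy
    · exact hfi hx hy hxy
    · rw [hy, hfa] at hxy; linarith [(hf x hx).1]
    · rw [Set.mem_singleton_iff] at hy; rw [hy, hfb] at hxy; linarith [(hf x hx).2]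
    · rw [hx, hfa] at hxy; linarith [(hf y hy).1]
    · rw [hx, hy]
    · rw [Set.mem_singleton_iff] at hy; rw [hx, hy, hfa, hfb] at hxy; norm_num at hxy
    · rw [Set.mem_singleton_iff] at hx; rw [hx, hfb] at hxy; linarith [(hf y hy).2]
    · rw [Set.mem_singleton_iff] at hx; rw [hx, hy, hfa, hfb] at hxy; norm_num at hxy
    · rw [Set.mem_singleton_iff] at hx hy; rw [hx, hy]
  have hθinj : Function.Injective θ := by
    intro x y hxy
    by_cases hx : x ∈ closure U <;> by_cases hy : y ∈ closure U
    · simp only [θ, if_pos hx, if_pos hy] at hxy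
      exact hfinj x hx y hy (mul_left_cancel₀ hpi.ne' hxy)
    · simp only [θ, if_pos hx, if_neg hy] at hxy
      have h1 := (hfrange x hx).1
      have h2 := (hg y (hnotU y hy)).1
      nlinarith
    · simp only [θ, if_neg hx, if_pos hy] at hxy
      have h1 := (hfrange y hy).1
      have h2 := (hg x (hnotU x hx)).1
      nlinarith
    · simp only [θ, if_neg hx, if_neg hy] at hxy
      exact hgi (hnotU x hx) (hnotU y hy) (mul_left_cancel₀ hpi.ne' (neg_injective hxy))
  have hFinj : Function.Injective F := by
    intro x y hxy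
    apply hθinj
    have h1 := Circle.arg_exp (hθ x).1 (hθ x).2
    have h2 := Circle.arg_exp (hθ y).1 (hθ y).2
    rw [← h1, ← h2]
    exact congrArg (fun c : Circle => (c : ℂ).arg) hxy
  have hFsurj : Function.Surjective F := by
    intro c
    obtain ⟨t, ht1, ht2, htc⟩ : ∃ t, -Real.pi < t ∧ t ≤ Real.pi ∧ Circle.exp t = c :=
      ⟨(c : ℂ).arg, Complex.neg_pi_lt_arg _, Complex.arg_le_pi _, Circle.exp_arg c⟩
    by_cases ht : 0 ≤ t
    · have hiv := (s.pre_closure hA).intermediate_value (s.a_mem hA) (s.b_mem hA) hfc
      rw [hfa, hfb] at hiv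
      have hmem : t / Real.pi ∈ Icc (0:ℝ) 1 := by
        constructor
        · positivity
        · rw [div_le_one hpi]; exact ht2
      obtain ⟨x, hx, hfx⟩ := hiv hmem
      refine ⟨x, ?_⟩
      simp only [F, θ, if_pos hx, hfx]
      rw [mul_div_cancel₀ _ hpi.ne', htc]
    · rw [not_le] at ht
      have hiv := (s.symm.pre_closure hA).intermediate_value (s.symm.a_mem hA) (s.symm.b_mem hA) hgc
      rw [hga, hgb] at hiv
      have hpos : 0 < -t / Real.pi := div_pos (by linarith) hpi
      have hlt1 : -t / Real.pi < 1 := by rw [div_lt_one hpi]; linarith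
      obtain ⟨x, hx, hgx⟩ := hiv ⟨hpos.le, hlt1.le⟩
      have hxV : x ∈ V := by
        rw [hVcl] at hx
        rcases hx with h | h | h
        · exact h
        · rw [h, hga] at hgx; linarith
        · rw [Set.mem_singleton_iff] at h; rw [h, hgb] at hgx; linarith
      refine ⟨x, ?_⟩
      simp only [F, θ, if_neg (hVnot x hxV), hgx]
      rw [mul_div_cancel₀ _ hpi.ne', neg_neg, htc]
  have hFc : Continuous F := by
    rw [← continuousOn_univ]
    have hun : (univ : Set X) = closure U ∪ closure V := by
      ext x
      simp only [Set.mem_univ, true_iff]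
      by_cases hx : x ∈ closure U
      · left; exact hx
      · right; exact subset_closure (hnotU x hx)
    rw [hun]
    apply ContinuousOn.union_of_isClosed _ _ isClosed_closure isClosed_closure
    · have h1 : ContinuousOn (fun x => Circle.exp (Real.pi * f x)) (closure U) :=
        Circle.exp.continuous.comp_continuousOn (continuousOn_const.mul hfc)
      apply h1.congr
      intro x hx
      simp only [F, θ, if_pos hx]
    · have h1 : ContinuousOn (fun x => Circle.exp (-(Real.pi * g x))) (closure V) :=
        Circle.exp.continuous.comp_continuousOn (continuousOn_const.mul hgc).neg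
      apply h1.congr
      intro x hx
      by_cases hxU : x ∈ closure U
      · rw [hVcl] at hx
        rcases hx with h | h | h
        · exact absurd hxU (hVnot x h)
        · simp only [F, θ, if_pos hxU]
          rw [h, hfa, hga]; simp
        · rw [Set.mem_singleton_iff] at h
          simp only [F, θ, if_pos hxU]
          rw [h, hfb, hgb, mul_one]
          have : Circle.exp (Real.pi + Real.pi) = 1 := by
            rw [← two_mul]; exact Circle.exp_two_pi
          rw [Circle.exp_add] at this
          rw [Circle.exp_neg]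
          exact eq_inv_of_mul_eq_one_left this
      · simp only [F, θ, if_neg hxU]
  exact ⟨Continuous.homeoOfEquivCompactToT2 (f := Equiv.ofBijective F ⟨hFinj, hFsurj⟩) hFc⟩

theorem uncountable_of_preconnected {Y : Type*} [MetricSpace Y] [PreconnectedSpace Y]
    [Nontrivial Y] : ¬ (univ : Set Y).Countable := by
  intro h
  obtain ⟨x, y, hxy⟩ := exists_pair_ne Y
  have hd : 0 < dist x y := dist_pos.mpr hxy
  have h1 : Icc (dist x x) (dist x y) ⊆ (fun z => dist x z) '' univ :=
    isPreconnected_univ.intermediate_value (Set.mem_univ x) (Set.mem_univ y)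
      (Continuous.continuousOn (by fun_prop))
  have h2 : (Icc (dist x x) (dist x y)).Countable := (h.image _).mono h1
  rw [dist_self] at h2
  exact not_lt.mpr (Cardinal.Real.Icc_countable_iff.mp h2) hd

/-- A homogeneous compact connected metric space that is separated by some pair of points is
homeomorphic to the circle. -/
theorem homogeneous_pair {X : Type*} [MetricSpace X] [CompactSpace X] [PreconnectedSpace X]
    (hh : ∀ x y : X, ∃ h : X ≃ₜ X, h x = y) {a b : X} (hab : a ≠ b)
    (hsep : ¬ IsPreconnected (({a, b} : Set X)ᶜ)) : Nonempty (X ≃ₜ Circle) := by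
  have : Nontrivial X := ⟨a, b, hab⟩
  have hA : NoCut X := noCut_of_homogeneous hh
  obtain ⟨U, V, s⟩ := sep_of_not_preconnected hab hsep
  have hq : ∀ x : X, ∃ (q : X) (U V : Set X), Sep x q U V := by
    intro x
    obtain ⟨h, hx⟩ := hh a x
    have := s.map h
    rw [hx] at this
    exact ⟨_, _, _, this⟩
  obtain ⟨x0, hx0⟩ := exists_locSep hA uncountable_of_preconnected hq
  have hL : ∀ x : X, LocSep x := by
    intro x
    obtain ⟨h, hx⟩ := hh x0 x
    have := hx0.map h
    rwa [hx] at this
  exact circle_of_locSep hA hL s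

end Pool.Agent.Helper531.Gordh
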