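import Mathlib
import Pool.Agent.Helper531.LocSepDefs

set_option autoImplicit false

namespace Pool.Agent.Helper531.Sine

open Set Filter Topology

/-- A point of a path component of the graph. -/
noncomputable def g (x : ℝ) : ℝ × ℝ := (x, Real.sin x⁻¹)

/-- The closed topologist's sine curve over `[0,1]`. -/
def X : Set (ℝ × ℝ) :=
  {p | 0 ≤ p.1 ∧ p.1 ≤ 1 ∧ |p.2| ≤ 1 ∧ (0 < p.1 → p.2 = Real.sin p.1⁻¹)}

theorem g_cont {s : Set ℝ} (hs : ∀ x ∈ s, 0 < x) : ContinuousOn g s := by
  apply continuousOn_id.prodMk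
  apply Real.continuous_sin.comp_continuousOn
  exact continuousOn_id.inv₀ (fun x hx => (hs x hx).ne')

theorem g_mem {x : ℝ} (h0 : 0 < x) (h1 : x ≤ 1) : g x ∈ X :=
  ⟨h0.le, h1, Real.abs_sin_le_one _, fun _ => rfl⟩

theorem eq_g {p : ℝ × ℝ} (hp : p ∈ X) (h : 0 < p.1) : p = g p.1 :=
  Prod.ext rfl (hp.2.2.2 h)

/-- Sierpinski: the line is not the union of countably many disjoint proper closed sets. -/
theorem sierpinski {ι : Type*} [Countable ι] (F : ι → Set ℝ) (hF : ∀ i, IsClosed (F i))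
    (hd : ∀ i j, i ≠ j → Disjoint (F i) (F j)) (hcov : ∀ x, ∃ i, x ∈ F i) : ∃ i, F i = univ := by
  let E : Set ℝ := (⋃ i, interior (F i))ᶜ
  have hE : IsClosed E := (isOpen_iUnion (fun i => isOpen_interior)).isClosed_compl
  have hEmem : ∀ x, x ∈ E ↔ ∀ i, x ∉ interior (F i) := by
    intro x; simp [E]
  by_cases hne : E.Nonempty
  · exfalso
    have : CompleteSpace E := hE.completeSpace_coe
    have : Nonempty E := hne.to_subtype
    obtain ⟨k, e, he⟩ := nonempty_interior_of_iUnion_of_closed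
      (f := fun i => (Subtype.val ⁻¹' (F i) : Set E))
      (fun i => (hF i).preimage continuous_subtype_val)
      (by
        ext x
        simp only [Set.mem_iUnion, Set.mem_preimage, Set.mem_univ, iff_true]
        exact hcov x)
    rw [mem_interior_iff_mem_nhds, nhds_subtype_eq_comap, mem_comap] at he
    obtain ⟨J0, hJ0, hJ0s⟩ := he
    obtain ⟨ε, hε, hεJ⟩ := Metric.mem_nhds_iff.mp hJ0
    set J : Set ℝ := Metric.ball e.1 ε with hJ
    have hJE : ∀ x ∈ J, x ∈ E → x ∈ F k := fun x hx hxE => hJ0s (show (⟨x, hxE⟩ : E).1 ∈ J0 from hεJ hx)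
    have hJpre : IsPreconnected J := by rw [hJ, Real.ball_eq_Ioo]; exact isPreconnected_Ioo
    have heJ : e.1 ∈ J := Metric.mem_ball_self hε
    have hm : ∀ m, m ≠ k → ∀ x ∈ J, x ∉ interior (F m) := by
      intro m hmk x hxJ hxm
      have hsub : J ⊆ interior (F m) ∪ (F m)ᶜ := by
        intro w hw
        by_cases hwm : w ∈ F m
        · left
          by_contra hwi
          have hwE : w ∈ E := by
            rw [hEmem]
            intro i hi
            by_cases him : i = m
            · exact hwi (him ▸ hi)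
            · exact Set.disjoint_left.mp (hd i m him) (interior_subset hi) hwm
          exact Set.disjoint_left.mp (hd m k hmk) hwm (hJE w hw hwE)
        · right; exact hwm
      have := hJpre.subset_left_of_subset_union isOpen_interior (hF m).isOpen_compl
        (Set.disjoint_left.mpr (fun w hw1 hw2 => hw2 (interior_subset hw1))) hsub ⟨x, hxJ, hxm⟩
      exact (hEmem e.1).mp e.2 m (this heJ)
    have hJk : J ⊆ F k := by
      intro w hw
      by_cases hwE : w ∈ E
      · exact hJE w hw hwE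
      · rw [hEmem] at hwE
        push Not at hwE
        obtain ⟨i, hi⟩ := hwE
        by_cases hik : i = k
        · exact interior_subset (hik ▸ hi)
        · exact absurd hi (hm i hik w hw)
    have : J ⊆ interior (F k) := interior_maximal hJk Metric.isOpen_ball
    exact (hEmem e.1).mp e.2 k (this heJ)
  · rw [Set.not_nonempty_iff_eq_empty] at hne
    obtain ⟨i, hi⟩ := hcov 0
    refine ⟨i, ?_⟩
    have hop : interior (F i) = F i := by
      apply Set.Subset.antisymm interior_subset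
      intro x hx
      by_contra hxi
      have : x ∈ E := by
        rw [hEmem]
        intro j hj
        by_cases hji : j = i
        · exact hxi (hji ▸ hj)
        · exact Set.disjoint_left.mp (hd j i hji) (interior_subset hj) hx
      rw [hne] at this
      exact this
    have hcl : IsClopen (F i) := ⟨hF i, by rw [← hop]; exact isOpen_interior⟩
    exact hcl.eq_univ ⟨0, hi⟩

/-- A continuous surjection from the line to an open interval. -/
theorem exists_surj (s t : ℝ) (hst : s < t) : ∃ σ : ℝ → ℝ, Continuous σ ∧ range σ = Ioo s t := by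
  refine ⟨fun u => s + (t - s) * Real.sigmoid u, by fun_prop, ?_⟩
  ext x
  constructor
  · rintro ⟨u, rfl⟩
    have h1 := Real.sigmoid_pos u
    have h2 := Real.sigmoid_lt_one u
    constructor
    · have : 0 < (t - s) * Real.sigmoid u := mul_pos (sub_pos.mpr hst) h1
      simp only; linarith
    · have : (t - s) * Real.sigmoid u < t - s := by nlinarith [sub_pos.mpr hst]
      simp only; linarith
  · rintro ⟨h1, h2⟩
    have : (x - s) / (t - s) ∈ Ioo (0:ℝ) 1 := by
      constructor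
      · exact div_pos (by linarith) (by linarith)
      · rw [div_lt_one (by linarith)]; linarith
    rw [← Real.range_sigmoid] at this
    obtain ⟨u, hu⟩ := this
    refine ⟨u, ?_⟩
    simp only [hu]
    rw [mul_div_cancel₀ _ (sub_pos.mpr hst).ne']
    ring

theorem piece {C : Set (ℝ × ℝ)} {π : ℝ × ℝ → ℝ} (hπ : Continuous π) {h : ℝ → ℝ × ℝ} {a b : ℝ}
    (hc : ContinuousOn h (Ioo a b)) (hleft : ∀ x ∈ Ioo a b, π (h x) = x)
    (hmem : ∀ x ∈ Ioo a b, h x ∈ C) (huniq : ∀ q ∈ C, π q ∈ Ioo a b → q = h (π q)) :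
    h '' Ioo a b ⊆ LocalSeparatingPoints C := by
  rintro _ ⟨x, hx, rfl⟩
  refine ⟨hmem x hx, π ⁻¹' Ioo a b, isOpen_Ioo.preimage hπ, ?_, ?_⟩
  · rw [Set.mem_preimage, hleft x hx]; exact hx
  · have hCU : C ∩ π ⁻¹' Ioo a b = h '' Ioo a b := by
      ext q
      constructor
      · rintro ⟨hq, hqU⟩
        exact ⟨π q, hqU, (huniq q hq hqU).symm⟩
      · rintro ⟨y, hy, rfl⟩
        refine ⟨hmem y hy, ?_⟩
        rw [Set.mem_preimage, hleft y hy]; exact hy
    have hpre : IsPreconnected (h '' Ioo a b) := isPreconnected_Ioo.image h hc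
    rw [hCU, hpre.connectedComponentIn ⟨x, hx, rfl⟩]
    intro hcon
    have h1 := (hcon.image π hπ.continuousOn).ordConnected
    have hy1 : (a + x) / 2 ∈ π '' (h '' Ioo a b \ {h x}) := by
      have hm : (a + x) / 2 ∈ Ioo a b := ⟨by linarith [hx.1], by linarith [hx.1, hx.2]⟩
      refine ⟨h ((a + x) / 2), ⟨⟨_, hm, rfl⟩, ?_⟩, hleft _ hm⟩
      intro he
      have := congrArg π (Set.mem_singleton_iff.mp he)
      rw [hleft _ hm, hleft x hx] at this
      linarith [hx.1]
    have hy2 : (x + b) / 2 ∈ π '' (h '' Ioo a b \ {h x}) := by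
      have hm : (x + b) / 2 ∈ Ioo a b := ⟨by linarith [hx.1, hx.2], by linarith [hx.2]⟩
      refine ⟨h ((x + b) / 2), ⟨⟨_, hm, rfl⟩, ?_⟩, hleft _ hm⟩
      intro he
      have := congrArg π (Set.mem_singleton_iff.mp he)
      rw [hleft _ hm, hleft x hx] at this
      linarith [hx.2]
    have h2 : x ∈ π '' (h '' Ioo a b \ {h x}) :=
      h1.out hy1 hy2 ⟨by linarith [hx.1], by linarith [hx.2]⟩
    obtain ⟨q, ⟨⟨y, hy, rfl⟩, hq⟩, hqx⟩ := h2
    rw [hleft y hy] at hqx
    exact hq (by rw [hqx]; rfl)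

theorem range_of {h : ℝ → ℝ × ℝ} {a b : ℝ} (hab : a < b) (hc : ContinuousOn h (Ioo a b)) :
    ∃ ψ : ℝ → ℝ × ℝ, Continuous ψ ∧ range ψ = h '' Ioo a b := by
  obtain ⟨σ, hσ, hr⟩ := exists_surj a b hab
  refine ⟨h ∘ σ, ?_, by rw [Set.range_comp, hr]⟩
  exact hc.comp_continuous hσ (fun x => hr ▸ Set.mem_range_self x)

/-- points of the sine curve accumulate at each point of the limit bar -/
theorem bar_mem_closure {y t : ℝ} (hy : |y| ≤ 1) (ht : 0 < t) :
    ((0 : ℝ), y) ∈ closure (g '' Ioo 0 t) := by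
  have hy' : y ∈ Icc (-1 : ℝ) 1 := abs_le.mp hy
  let xs : ℕ → ℝ := fun k => (Real.arcsin y + (k + 1) * (2 * Real.pi))⁻¹
  have hpos : ∀ k, 0 < xs k := by
    intro k
    apply inv_pos.mpr
    have h1 := Real.neg_pi_div_two_le_arcsin y
    have h2 := Real.pi_pos
    have h3 : (0:ℝ) ≤ k := Nat.cast_nonneg k
    nlinarith
  have hsin : ∀ k, Real.sin (xs k)⁻¹ = y := by
    intro k
    simp only [xs, inv_inv]
    have : Real.arcsin y + ((k:ℝ) + 1) * (2 * Real.pi) = Real.arcsin y + ((k + 1 : ℕ) : ℝ) * (2 * Real.pi) := by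
      push_cast; ring
    rw [this, Real.sin_add_nat_mul_two_pi, Real.sin_arcsin hy'.1 hy'.2]
  have hlim : Tendsto xs atTop (𝓝 0) := by
    apply tendsto_inv_atTop_zero.comp
    apply tendsto_atTop_add_const_left
    apply Tendsto.atTop_mul_const (by positivity)
    exact tendsto_atTop_add_const_right _ _ tendsto_natCast_atTop_atTop
  rw [mem_closure_iff_seq_limit]
  have hev : ∀ᶠ k in atTop, xs k < t := hlim.eventually (gt_mem_nhds ht)
  obtain ⟨N, hN⟩ := eventually_atTop.mp hev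
  refine ⟨fun k => g (xs (k + N)), fun k => ⟨_, ⟨hpos _, hN _ (by omega)⟩, rfl⟩, ?_⟩
  have h2 : (fun k => g (xs (k + N))) = fun k => (xs (k + N), y) := by
    funext k
    simp only [g, hsin]
  rw [h2]
  exact ((tendsto_add_atTop_iff_nat N).mpr hlim).prodMk_nhds tendsto_const_nhds

/-- Structure of nondegenerate subcontinua. -/
theorem key {C : Set (ℝ × ℝ)} (hCX : C ⊆ X) (hC : IsCompact C) (hCc : IsPreconnected C)
    (hnt : C.Nontrivial) : ∃ ψ : ℝ → ℝ × ℝ, Continuous ψ ∧
      range ψ ⊆ LocalSeparatingPoints C ∧ C ⊆ closure (range ψ) := by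
  have hconn : IsConnected C := ⟨hnt.nonempty, hCc⟩
  by_cases hp : ∃ p ∈ C, 0 < p.1
  · have hI := eq_Icc_of_connected_compact (hconn.image Prod.fst continuous_fst.continuousOn)
      (hC.image continuous_fst)
    set s := sInf (Prod.fst '' C)
    set t := sSup (Prod.fst '' C)
    have hmemI : ∀ q ∈ C, q.1 ∈ Icc s t := fun q hq => hI ▸ ⟨q, hq, rfl⟩
    have hex : ∀ x ∈ Icc s t, ∃ q ∈ C, q.1 = x := by
      intro x hx
      rw [← hI] at hx
      exact hx
    obtain ⟨p, hpC, hp0⟩ := hp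
    have ht0 : 0 < t := lt_of_lt_of_le hp0 (hmemI p hpC).2
    have hst' : s ≤ t := (hmemI p hpC).1.trans (hmemI p hpC).2
    have hs0 : 0 ≤ s := by
      obtain ⟨q, hq, hqs⟩ := hex s ⟨le_rfl, hst'⟩
      rw [← hqs]; exact (hCX hq).1
    have hst : s < t := by
      rcases hst'.lt_or_eq with h | h
      · exact h
      · exfalso
        obtain ⟨q1, hq1, q2, hq2, hne⟩ := hnt
        apply hne
        have e1 : q1.1 = t := le_antisymm (hmemI q1 hq1).2 (h ▸ (hmemI q1 hq1).1)
        have e2 : q2.1 = t := le_antisymm (hmemI q2 hq2).2 (h ▸ (hmemI q2 hq2).1)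
        rw [eq_g (hCX hq1) (e1 ▸ ht0), eq_g (hCX hq2) (e2 ▸ ht0), e1, e2]
    have hgc : ContinuousOn g (Ioo s t) := g_cont (fun x hx => lt_of_le_of_lt hs0 hx.1)
    obtain ⟨ψ, hψ, hr⟩ := range_of hst hgc
    refine ⟨ψ, hψ, ?_, ?_⟩
    · rw [hr]
      apply piece continuous_fst hgc (fun x _ => rfl)
      · intro x hx
        obtain ⟨q, hq, hqx⟩ := hex x ⟨hx.1.le, hx.2.le⟩
        have := eq_g (hCX hq) (by rw [hqx]; exact lt_of_le_of_lt hs0 hx.1)
        rw [hqx] at this
        rw [← this]; exact hq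
      · intro q hq hqI
        exact eq_g (hCX hq) (lt_of_le_of_lt hs0 hqI.1)
    · rw [hr]
      intro q hq
      rcases (hCX hq).1.lt_or_eq with h | h
      · rw [eq_g (hCX hq) h]
        have h1 : q.1 ∈ closure (Ioo s t) := by
          rw [closure_Ioo hst.ne]; exact hmemI q hq
        have h2 : ContinuousAt g q.1 := by
          have : ContinuousOn g (Ioi 0) := g_cont (fun x hx => hx)
          exact this.continuousAt (Ioi_mem_nhds h)
        exact mem_closure_image h2 h1
      · have hs : s = 0 := le_antisymm (h ▸ (hmemI q hq).1) hs0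
        rw [hs]
        have : q = (0, q.2) := Prod.ext h.symm rfl
        rw [this]
        exact bar_mem_closure (hCX hq).2.2.1 ht0
  · push Not at hp
    have hz : ∀ q ∈ C, q.1 = 0 := fun q hq => le_antisymm (hp q hq) (hCX hq).1
    have hI := eq_Icc_of_connected_compact (hconn.image Prod.snd continuous_snd.continuousOn)
      (hC.image continuous_snd)
    set c := sInf (Prod.snd '' C)
    set d := sSup (Prod.snd '' C)
    have hmemI : ∀ q ∈ C, q.2 ∈ Icc c d := fun q hq => hI ▸ ⟨q, hq, rfl⟩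
    have hex : ∀ x ∈ Icc c d, ((0:ℝ), x) ∈ C := by
      intro x hx
      rw [← hI] at hx
      obtain ⟨q, hq, hqx⟩ := hx
      have : q = (0, x) := Prod.ext (hz q hq) hqx
      rw [← this]; exact hq
    have hcd : c < d := by
      obtain ⟨q1, hq1, q2, hq2, hne⟩ := hnt
      by_contra hcd
      rw [not_lt] at hcd
      apply hne
      have e1 := hmemI q1 hq1
      have e2 := hmemI q2 hq2
      apply Prod.ext
      · rw [hz q1 hq1, hz q2 hq2]
      · linarith [e1.1, e1.2, e2.1, e2.2]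
    have hhc : ContinuousOn (fun y : ℝ => ((0:ℝ), y)) (Ioo c d) := by fun_prop
    obtain ⟨ψ, hψ, hr⟩ := range_of hcd hhc
    refine ⟨ψ, hψ, ?_, ?_⟩
    · rw [hr]
      apply piece continuous_snd hhc (fun x _ => rfl)
      · intro x hx
        exact hex x ⟨hx.1.le, hx.2.le⟩
      · intro q hq _
        exact Prod.ext (hz q hq) rfl
    · rw [hr]
      intro q hq
      have : q = (0, q.2) := Prod.ext (hz q hq) rfl
      rw [this]
      have h1 : q.2 ∈ closure (Ioo c d) := by
        rw [closure_Ioo hcd.ne]; exact hmemI q hq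
      exact mem_closure_image (f := fun y : ℝ => ((0:ℝ), y)) (by fun_prop) h1

theorem L_sub {α : Type*} [TopologicalSpace α] (C : Set α) : LocalSeparatingPoints C ⊆ C :=
  fun _ hp => hp.1

theorem L_preconnected {C : Set (ℝ × ℝ)} (hCX : C ⊆ X) (hC : IsCompact C)
    (hCc : IsPreconnected C) : IsPreconnected (LocalSeparatingPoints C) := by
  by_cases hnt : C.Nontrivial
  · obtain ⟨ψ, hψ, h1, h2⟩ := key hCX hC hCc hnt
    exact (isPreconnected_range hψ).subset_closure h1 ((L_sub C).trans h2)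
  · rw [Set.not_nontrivial_iff] at hnt
    exact (hnt.anti (L_sub C)).isPreconnected

theorem L_nonempty {C : Set (ℝ × ℝ)} (hCX : C ⊆ X) (hC : IsCompact C)
    (hCc : IsPreconnected C) (hnt : C.Nontrivial) : (LocalSeparatingPoints C).Nonempty := by
  obtain ⟨ψ, hψ, h1, h2⟩ := key hCX hC hCc hnt
  exact ⟨ψ 0, h1 (Set.mem_range_self 0)⟩

theorem not_countable_union {C : Set (ℝ × ℝ)} (hCX : C ⊆ X) (hC : IsCompact C)
    (hCc : IsPreconnected C) (hnt : C.Nontrivial) {ι : Type*} [Countable ι]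
    (F : ι → Set (ℝ × ℝ)) (hFC : ∀ i, F i ⊆ C) (hF : ∀ i, IsClosed (F i)) (hne : ∀ i, F i ≠ C)
    (hd : ∀ i j, i ≠ j → Disjoint (F i) (F j)) (hU : LocalSeparatingPoints C ⊆ ⋃ i, F i) :
    False := by
  obtain ⟨ψ, hψ, h1, h2⟩ := key hCX hC hCc hnt
  obtain ⟨i, hi⟩ := sierpinski (fun i => ψ ⁻¹' F i) (fun i => (hF i).preimage hψ)
    (fun i j hij => (hd i j hij).preimage ψ)
    (fun x => by
      have := hU (h1 (Set.mem_range_self x))
      rw [Set.mem_iUnion] at this
      exact this)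
  apply hne i
  apply Set.Subset.antisymm (hFC i)
  have : range ψ ⊆ F i := by
    rintro _ ⟨x, rfl⟩
    have : x ∈ ψ ⁻¹' F i := by rw [hi]; exact Set.mem_univ x
    exact this
  exact h2.trans (closure_minimal this (hF i))

theorem X_closed : IsClosed X := by
  apply isClosed_of_closure_subset
  intro p hp
  obtain ⟨f, hf, hlim⟩ := mem_closure_iff_seq_limit.mp hp
  have h1 : Tendsto (fun n => (f n).1) atTop (𝓝 p.1) := (continuous_fst.tendsto p).comp hlim
  have h2 : Tendsto (fun n => (f n).2) atTop (𝓝 p.2) := (continuous_snd.tendsto p).comp hlim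
  refine ⟨ge_of_tendsto' h1 (fun n => (hf n).1), le_of_tendsto' h1 (fun n => (hf n).2.1),
    le_of_tendsto' h2.abs (fun n => (hf n).2.2.1), ?_⟩
  intro hpos
  have h3 : ContinuousAt (fun x : ℝ => Real.sin x⁻¹) p.1 :=
    Real.continuous_sin.continuousAt.comp (continuousAt_inv₀ hpos.ne')
  apply tendsto_nhds_unique h2
  apply (h3.tendsto.comp h1).congr'
  filter_upwards [h1.eventually (lt_mem_nhds hpos)] with n hn
  exact ((hf n).2.2.2 hn).symm

theorem X_compact : IsCompact X := by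
  apply Metric.isCompact_of_isClosed_isBounded X_closed
  apply (Metric.isBounded_Icc ((0:ℝ), (-1:ℝ)) ((1:ℝ), (1:ℝ))).subset
  intro p hp
  exact ⟨⟨hp.1, (abs_le.mp hp.2.2.1).1⟩, ⟨hp.2.1, (abs_le.mp hp.2.2.1).2⟩⟩

theorem X_connected : IsConnected X := by
  refine ⟨⟨g 1, g_mem one_pos le_rfl⟩, ?_⟩
  have hpre : IsPreconnected (g '' Ioo 0 1) := isPreconnected_Ioo.image g (g_cont (fun x hx => hx.1))
  apply hpre.subset_closure
  · rintro _ ⟨x, hx, rfl⟩
    exact g_mem hx.1 hx.2.le
  · intro q hq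
    rcases hq.1.lt_or_eq with h | h
    · rw [eq_g hq h]
      have h1 : q.1 ∈ closure (Ioo (0:ℝ) 1) := by
        rw [closure_Ioo zero_ne_one]; exact ⟨hq.1, hq.2.1⟩
      have h2 : ContinuousAt g q.1 := by
        have : ContinuousOn g (Ioi 0) := g_cont (fun x hx => hx)
        exact this.continuousAt (Ioi_mem_nhds h)
      exact mem_closure_image h2 h1
    · have : q = (0, q.2) := Prod.ext h.symm rfl
      rw [this]
      exact bar_mem_closure hq.2.2.1 one_pos

/-- No path in `X` joins `(0,0)` to `g 1`. -/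
theorem no_path (γ : unitInterval → ℝ × ℝ) (hγ : Continuous γ) (h0 : γ 0 = (0, 0))
    (h1 : γ 1 = g 1) (hr : range γ ⊆ X) : False := by
  have hx : Continuous fun t => (γ t).1 := continuous_fst.comp hγ
  have hy : Continuous fun t => (γ t).2 := continuous_snd.comp hγ
  let S : Set unitInterval := {t | (γ t).1 = 0}
  have hS : IsClosed S := isClosed_eq hx continuous_const
  have hSne : S.Nonempty := ⟨0, by simp [S, h0]⟩
  obtain ⟨t0, ht0, hmax⟩ := hS.isCompact.exists_isGreatest hSne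
  have ht0' : (γ t0).1 = 0 := ht0
  have ht01 : t0 < 1 := by
    rcases (unitInterval.le_one' (t := t0)).lt_or_eq with h | h
    · exact h
    · exfalso
      rw [h, h1] at ht0'
      simp [g] at ht0'
  -- continuity of the second coordinate at t0
  have hcont : ContinuousAt (fun t => (γ t).2) t0 := hy.continuousAt
  obtain ⟨δ, hδ, hδ'⟩ := Metric.continuousAt_iff.mp hcont 1 one_pos
  -- a time t1 after t0 and close to it
  obtain ⟨t1, ht1, ht1δ⟩ : ∃ t1 : unitInterval, t0 < t1 ∧ ∀ t ∈ Icc t0 t1, dist t t0 < δ := by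
    have hh : (t0 : ℝ) < 1 := ht01
    let r : ℝ := min ((t0 : ℝ) + δ / 2) 1
    have hr0 : 0 ≤ r := le_min (by linarith [t0.2.1]) zero_le_one
    have hr1 : r ≤ 1 := min_le_right _ _
    have hrt : (t0 : ℝ) < r := lt_min (by linarith) hh
    refine ⟨⟨r, hr0, hr1⟩, hrt, ?_⟩
    rintro t ⟨hta, htb⟩
    have ha : (t0 : ℝ) ≤ t := hta
    have hb : (t : ℝ) ≤ r := htb
    have hc : r ≤ (t0 : ℝ) + δ / 2 := min_le_left _ _
    rw [Subtype.dist_eq, Real.dist_eq, abs_of_nonneg (by linarith)]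
    linarith
  have ha : 0 < (γ t1).1 := by
    rcases (hr (Set.mem_range_self t1)).1.lt_or_eq with h | h
    · exact h
    · exfalso
      have : t1 ∈ S := h.symm
      exact absurd (hmax this) (not_le.mpr ht1)
  have hIcc : Icc 0 (γ t1).1 ⊆ (fun t => (γ t).1) '' Icc t0 t1 := by
    have := (isPreconnected_Icc (a := t0) (b := t1)).intermediate_value
      ⟨le_rfl, ht1.le⟩ ⟨ht1.le, le_rfl⟩ hx.continuousOn
    rwa [ht0'] at this
  -- every y in [-1,1] is attained near t0
  have hclose : ∀ y : ℝ, |y| ≤ 1 → ∃ t : unitInterval, dist t t0 < δ ∧ (γ t).2 = y := by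
    intro y hy1
    have hcl := bar_mem_closure hy1 ha
    -- direct choice of x
    obtain ⟨x, hx0, hxa, hxs⟩ : ∃ x : ℝ, 0 < x ∧ x < (γ t1).1 ∧ Real.sin x⁻¹ = y := by
      have hy' : y ∈ Icc (-1 : ℝ) 1 := abs_le.mp hy1
      obtain ⟨n, hn⟩ := exists_nat_gt ((γ t1).1⁻¹)
      have hn0 : (0:ℝ) ≤ n := Nat.cast_nonneg n
      have hpi := Real.pi_gt_three
      have h3 := Real.neg_pi_div_two_le_arcsin y
      have hbig : (γ t1).1⁻¹ < Real.arcsin y + ((n + 1 : ℕ) : ℝ) * (2 * Real.pi) := by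
        push_cast
        nlinarith
      refine ⟨(Real.arcsin y + ((n + 1 : ℕ) : ℝ) * (2 * Real.pi))⁻¹, ?_, ?_, ?_⟩
      · exact inv_pos.mpr (lt_trans (inv_pos.mpr ha) hbig)
      · exact inv_lt_of_inv_lt₀ ha hbig
      · rw [inv_inv, Real.sin_add_nat_mul_two_pi, Real.sin_arcsin hy'.1 hy'.2]
    obtain ⟨t, ht, htx⟩ := hIcc ⟨hx0.le, hxa.le⟩
    refine ⟨t, ht1δ t ht, ?_⟩
    have htx' : (γ t).1 = x := htx
    have h4 := (hr (Set.mem_range_self t)).2.2.2 (by rw [htx']; exact hx0)
    rw [h4, htx', hxs]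
  obtain ⟨ta, hta, hta'⟩ := hclose 1 (by norm_num)
  obtain ⟨tb, htb, htb'⟩ := hclose (-1) (by norm_num)
  have e1 := hδ' hta
  have e2 := hδ' htb
  rw [hta', Real.dist_eq, abs_lt] at e1
  rw [htb', Real.dist_eq, abs_lt] at e2
  linarith [e1.1, e1.2, e2.1, e2.2]

theorem not_arcwise : ¬ ArcwiseConnected X := by
  intro h
  have h00 : ((0:ℝ), (0:ℝ)) ∈ X := ⟨le_rfl, zero_le_one, by norm_num, fun h => absurd h (lt_irrefl _)⟩
  have hne : ((0:ℝ), (0:ℝ)) ≠ g 1 := by
    intro he
    have := congrArg Prod.fst he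
    simp [g] at this
  obtain ⟨γ, hγ, -, hγ0, hγ1, hr⟩ := h _ h00 _ (g_mem one_pos le_rfl) hne
  exact no_path γ hγ hγ0 hγ1 hr

end Pool.Agent.Helper531.Sine
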