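import Mathlib
import Pool.Agent.Helper531.LocSepDefs
import Pool.Agent.Helper531.Sine

set_option autoImplicit false

namespace Pool.Agent.Helper531

/-- Whyburn's form of the definition of a local separating point: `p` is a point of `C` for which
there is an open set `U` containing `p` such that `(C ∩ closure U) \ {p}` is the union of two
separated sets each of which meets the component of `C ∩ closure U` that contains `p`. -/
def WhyburnLocalSeparatingPoints {α : Type*} [TopologicalSpace α] (C : Set α) : Set α :=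
  {p | p ∈ C ∧ ∃ U : Set α, IsOpen U ∧ p ∈ U ∧ ∃ A B : Set α,
    A ∪ B = (C ∩ closure U) \ {p} ∧ closure A ∩ B = ∅ ∧ A ∩ closure B = ∅ ∧
    (A ∩ connectedComponentIn (C ∩ closure U) p).Nonempty ∧
    (B ∩ connectedComponentIn (C ∩ closure U) p).Nonempty}

namespace Sine

open Set Filter Topology

theorem piece2 {C : Set (ℝ × ℝ)} {π : ℝ × ℝ → ℝ} (hπ : Continuous π) {h : ℝ → ℝ × ℝ} {a b : ℝ}
    (hc : ContinuousOn h (Ioo a b)) (hleft : ∀ x ∈ Ioo a b, π (h x) = x)
    (hmem : ∀ x ∈ Ioo a b, h x ∈ C) (huniq : ∀ q ∈ C, π q ∈ Ioo a b → q = h (π q)) :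
    h '' Ioo a b ⊆ LocalSeparatingPoints C ∩ WhyburnLocalSeparatingPoints C := by
  intro p hp
  refine ⟨piece hπ hc hleft hmem huniq hp, ?_⟩
  obtain ⟨x, hx, rfl⟩ := hp
  obtain ⟨hax, hxb⟩ := hx
  set a' := (a + x) / 2 with ha'
  set b' := (x + b) / 2 with hb'
  have hcl : closure (π ⁻¹' Ioo a' b') ⊆ π ⁻¹' Icc a' b' :=
    closure_minimal (preimage_mono Ioo_subset_Icc_self) (isClosed_Icc.preimage hπ)
  have hin : ∀ y, a' < y → y < b' → y ∈ Ioo a b := fun y h1 h2 => ⟨by linarith, by linarith⟩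
  have hyU : ∀ y, a' < y → y < b' → h y ∈ C ∩ closure (π ⁻¹' Ioo a' b') := by
    intro y h1 h2
    refine ⟨hmem y (hin y h1 h2), subset_closure ?_⟩
    rw [Set.mem_preimage, hleft y (hin y h1 h2)]
    exact ⟨h1, h2⟩
  have hxU : h x ∈ C ∩ closure (π ⁻¹' Ioo a' b') := hyU x (by linarith) (by linarith)
  have hK : h '' Ioo a' b' ⊆ connectedComponentIn (C ∩ closure (π ⁻¹' Ioo a' b')) (h x) := by
    apply IsPreconnected.subset_connectedComponentIn
    · exact isPreconnected_Ioo.image h (hc.mono fun y hy => hin y hy.1 hy.2)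
    · exact ⟨x, ⟨by linarith, by linarith⟩, rfl⟩
    · rintro _ ⟨y, hy, rfl⟩
      exact hyU y hy.1 hy.2
  refine ⟨hmem x ⟨hax, hxb⟩, π ⁻¹' Ioo a' b', isOpen_Ioo.preimage hπ, ?_,
    (C ∩ closure (π ⁻¹' Ioo a' b')) ∩ π ⁻¹' Iio x, (C ∩ closure (π ⁻¹' Ioo a' b')) ∩ π ⁻¹' Ioi x,
    ?_, ?_, ?_, ?_, ?_⟩
  · rw [Set.mem_preimage, hleft x ⟨hax, hxb⟩]
    exact ⟨by linarith, by linarith⟩
  · ext q
    constructor
    · rintro (⟨hq, hqx⟩ | ⟨hq, hqx⟩)
      · refine ⟨hq, fun he => ?_⟩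
        rw [Set.mem_singleton_iff.mp he, Set.mem_preimage, hleft x ⟨hax, hxb⟩] at hqx
        exact absurd hqx (by simp)
      · refine ⟨hq, fun he => ?_⟩
        rw [Set.mem_singleton_iff.mp he, Set.mem_preimage, hleft x ⟨hax, hxb⟩] at hqx
        exact absurd hqx (by simp)
    · rintro ⟨hq, hne⟩
      have hqI := hcl hq.2
      have hqab : π q ∈ Ioo a b := ⟨by linarith [hqI.1], by linarith [hqI.2]⟩
      have hqe := huniq q hq.1 hqab
      rcases lt_trichotomy (π q) x with hlt | heq | hgt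
      · exact Or.inl ⟨hq, hlt⟩
      · exact absurd (by rw [Set.mem_singleton_iff, hqe, heq]) hne
      · exact Or.inr ⟨hq, hgt⟩
  · rw [Set.eq_empty_iff_forall_notMem]
    rintro q ⟨hqA, hqB⟩
    have h1 : q ∈ π ⁻¹' Iic x :=
      closure_minimal (fun r hr => (le_of_lt hr.2 : π r ≤ x)) (isClosed_Iic.preimage hπ) hqA
    have h2 : π q ≤ x := h1
    have h3 : x < π q := hqB.2
    exact absurd h3 (not_lt.mpr h2)
  · rw [Set.eq_empty_iff_forall_notMem]
    rintro q ⟨hqA, hqB⟩
    have h1 : q ∈ π ⁻¹' Ici x :=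
      closure_minimal (fun r hr => (le_of_lt hr.2 : x ≤ π r)) (isClosed_Ici.preimage hπ) hqB
    have h2 : x ≤ π q := h1
    have h3 : π q < x := hqA.2
    exact absurd h3 (not_lt.mpr h2)
  · have h1 : a' < (a' + x) / 2 := by linarith
    have h2 : (a' + x) / 2 < b' := by linarith
    refine ⟨h ((a' + x) / 2), ⟨hyU _ h1 h2, ?_⟩, hK ⟨_, ⟨h1, h2⟩, rfl⟩⟩
    rw [Set.mem_preimage, hleft _ (hin _ h1 h2)]
    show (a' + x) / 2 < x
    linarith
  · have h1 : a' < (x + b') / 2 := by linarith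
    have h2 : (x + b') / 2 < b' := by linarith
    refine ⟨h ((x + b') / 2), ⟨hyU _ h1 h2, ?_⟩, hK ⟨_, ⟨h1, h2⟩, rfl⟩⟩
    rw [Set.mem_preimage, hleft _ (hin _ h1 h2)]
    show x < (x + b') / 2
    linarith

/-- Structure of nondegenerate subcontinua, for both definitions. -/
theorem key2 {C : Set (ℝ × ℝ)} (hCX : C ⊆ X) (hC : IsCompact C) (hCc : IsPreconnected C)
    (hnt : C.Nontrivial) : ∃ ψ : ℝ → ℝ × ℝ, Continuous ψ ∧
      range ψ ⊆ LocalSeparatingPoints C ∩ WhyburnLocalSeparatingPoints C ∧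
      C ⊆ closure (range ψ) := by
  have hconn : IsConnected C := ⟨hnt.nonempty, hCc⟩
  by_cases hp : ∃ p ∈ C, 0 < p.1
  · have hI := eq_Icc_of_connected_compact (hconn.image Prod.fst continuous_fst.continuousOn)
      (hC.image continuous_fst)
    set s := sInf (Prod.fst '' C)
    set t := sSup (Prod.fst '' C)
    have hmemI : ∀ q ∈ C, q.1 ∈ Icc s t := fun q hq => hI ▸ ⟨q, hq, rfl⟩
    have hex : ∀ x ∈ Icc s t, ∃ q ∈ C, q.1 = x := by
      intro x hx
      rw [← hI] at hx
      exact hx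
    obtain ⟨p, hpC, hp0⟩ := hp
    have ht0 : 0 < t := lt_of_lt_of_le hp0 (hmemI p hpC).2
    have hst' : s ≤ t := (hmemI p hpC).1.trans (hmemI p hpC).2
    have hs0 : 0 ≤ s := by
      obtain ⟨q, hq, hqs⟩ := hex s ⟨le_rfl, hst'⟩
      rw [← hqs]; exact (hCX hq).1
    have hst : s < t := by
      rcases hst'.lt_or_eq with h | h
      · exact h
      · exfalso
        obtain ⟨q1, hq1, q2, hq2, hne⟩ := hnt
        apply hne
        have e1 : q1.1 = t := le_antisymm (hmemI q1 hq1).2 (h ▸ (hmemI q1 hq1).1)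
        have e2 : q2.1 = t := le_antisymm (hmemI q2 hq2).2 (h ▸ (hmemI q2 hq2).1)
        rw [eq_g (hCX hq1) (e1 ▸ ht0), eq_g (hCX hq2) (e2 ▸ ht0), e1, e2]
    have hgc : ContinuousOn g (Ioo s t) := g_cont (fun x hx => lt_of_le_of_lt hs0 hx.1)
    obtain ⟨ψ, hψ, hr⟩ := range_of hst hgc
    refine ⟨ψ, hψ, ?_, ?_⟩
    · rw [hr]
      apply piece2 continuous_fst hgc (fun x _ => rfl)
      · intro x hx
        obtain ⟨q, hq, hqx⟩ := hex x ⟨hx.1.le, hx.2.le⟩
        have := eq_g (hCX hq) (by rw [hqx]; exact lt_of_le_of_lt hs0 hx.1)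
        rw [hqx] at this
        rw [← this]; exact hq
      · intro q hq hqI
        exact eq_g (hCX hq) (lt_of_le_of_lt hs0 hqI.1)
    · rw [hr]
      intro q hq
      rcases (hCX hq).1.lt_or_eq with h | h
      · rw [eq_g (hCX hq) h]
        have h1 : q.1 ∈ closure (Ioo s t) := by
          rw [closure_Ioo hst.ne]; exact hmemI q hq
        have h2 : ContinuousAt g q.1 := by
          have : ContinuousOn g (Ioi 0) := g_cont (fun x hx => hx)
          exact this.continuousAt (Ioi_mem_nhds h)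
        exact mem_closure_image h2 h1
      · have hs : s = 0 := le_antisymm (h ▸ (hmemI q hq).1) hs0
        rw [hs]
        have : q = (0, q.2) := Prod.ext h.symm rfl
        rw [this]
        exact bar_mem_closure (hCX hq).2.2.1 ht0
  · push Not at hp
    have hz : ∀ q ∈ C, q.1 = 0 := fun q hq => le_antisymm (hp q hq) (hCX hq).1
    have hI := eq_Icc_of_connected_compact (hconn.image Prod.snd continuous_snd.continuousOn)
      (hC.image continuous_snd)
    set c := sInf (Prod.snd '' C)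
    set d := sSup (Prod.snd '' C)
    have hmemI : ∀ q ∈ C, q.2 ∈ Icc c d := fun q hq => hI ▸ ⟨q, hq, rfl⟩
    have hex : ∀ x ∈ Icc c d, ((0:ℝ), x) ∈ C := by
      intro x hx
      rw [← hI] at hx
      obtain ⟨q, hq, hqx⟩ := hx
      have : q = (0, x) := Prod.ext (hz q hq) hqx
      rw [← this]; exact hq
    have hcd : c < d := by
      obtain ⟨q1, hq1, q2, hq2, hne⟩ := hnt
      by_contra hcd
      rw [not_lt] at hcd
      apply hne
      have e1 := hmemI q1 hq1
      have e2 := hmemI q2 hq2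
      apply Prod.ext
      · rw [hz q1 hq1, hz q2 hq2]
      · linarith [e1.1, e1.2, e2.1, e2.2]
    have hhc : ContinuousOn (fun y : ℝ => ((0:ℝ), y)) (Ioo c d) := by fun_prop
    obtain ⟨ψ, hψ, hr⟩ := range_of hcd hhc
    refine ⟨ψ, hψ, ?_, ?_⟩
    · rw [hr]
      apply piece2 continuous_snd hhc (fun x _ => rfl)
      · intro x hx
        exact hex x ⟨hx.1.le, hx.2.le⟩
      · intro q hq _
        exact Prod.ext (hz q hq) rfl
    · rw [hr]
      intro q hq
      have : q = (0, q.2) := Prod.ext (hz q hq) rfl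
      rw [this]
      have h1 : q.2 ∈ closure (Ioo c d) := by
        rw [closure_Ioo hcd.ne]; exact hmemI q hq
      exact mem_closure_image (f := fun y : ℝ => ((0:ℝ), y)) (by fun_prop) h1

theorem W_sub {α : Type*} [TopologicalSpace α] (C : Set α) :
    WhyburnLocalSeparatingPoints C ⊆ C := fun _ hp => hp.1

theorem W_preconnected {C : Set (ℝ × ℝ)} (hCX : C ⊆ X) (hC : IsCompact C)
    (hCc : IsPreconnected C) : IsPreconnected (WhyburnLocalSeparatingPoints C) := by
  by_cases hnt : C.Nontrivial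
  · obtain ⟨ψ, hψ, h1, h2⟩ := key2 hCX hC hCc hnt
    exact (isPreconnected_range hψ).subset_closure (h1.trans inter_subset_right)
      ((W_sub C).trans h2)
  · rw [Set.not_nontrivial_iff] at hnt
    exact (hnt.anti (W_sub C)).isPreconnected

theorem W_nonempty {C : Set (ℝ × ℝ)} (hCX : C ⊆ X) (hC : IsCompact C)
    (hCc : IsPreconnected C) (hnt : C.Nontrivial) :
    (WhyburnLocalSeparatingPoints C).Nonempty := by
  obtain ⟨ψ, hψ, h1, h2⟩ := key2 hCX hC hCc hnt
  exact ⟨ψ 0, (h1 (Set.mem_range_self 0)).2⟩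

theorem W_not_countable_union {C : Set (ℝ × ℝ)} (hCX : C ⊆ X) (hC : IsCompact C)
    (hCc : IsPreconnected C) (hnt : C.Nontrivial) {ι : Type*} [Countable ι]
    (F : ι → Set (ℝ × ℝ)) (hFC : ∀ i, F i ⊆ C) (hF : ∀ i, IsClosed (F i)) (hne : ∀ i, F i ≠ C)
    (hd : ∀ i j, i ≠ j → Disjoint (F i) (F j))
    (hU : WhyburnLocalSeparatingPoints C ⊆ ⋃ i, F i) : False := by
  obtain ⟨ψ, hψ, h1, h2⟩ := key2 hCX hC hCc hnt
  obtain ⟨i, hi⟩ := sierpinski (fun i => ψ ⁻¹' F i) (fun i => (hF i).preimage hψ)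
    (fun i j hij => (hd i j hij).preimage ψ)
    (fun x => by
      have := hU (h1 (Set.mem_range_self x)).2
      rw [Set.mem_iUnion] at this
      exact this)
  apply hne i
  apply Set.Subset.antisymm (hFC i)
  have : range ψ ⊆ F i := by
    rintro _ ⟨x, rfl⟩
    have : x ∈ ψ ⁻¹' F i := by rw [hi]; exact Set.mem_univ x
    exact this
  exact h2.trans (closure_minimal this (hF i))

end Sine

end Pool.Agent.Helper531
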